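import Pool.Agent.Lib.MP_a57f33_nt.PN.N.Inh

/-!
# Pentagon project (MP_a57f33_nt): an active chain and an inert list
-/

set_option autoImplicit false

namespace Pent

theorem shift_const {n : ℕ} {h : List ℚ → ℚ}
    (hh : ∀ L : List ℚ, L.length = n + 1 → h L.tail = h L.dropLast) (M : List ℚ)
    (hM : M.length = n) : h M = h (List.replicate n 0) := by
  have key : ∀ j, j ≤ n → h M = h (M.drop j ++ List.replicate j 0) := by
    intro j
    induction j with
    | zero => intro _; simp
    | succ j ih =>
      intro hj
      rw [ih (by omega)]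
      have h1 := hh (M.drop j ++ List.replicate j 0 ++ [0]) (by simp; omega)
      rw [List.dropLast_concat] at h1
      rw [← h1]
      congr 1
      have h2 : M.drop j = M.getD j 0 :: M.drop (j + 1) := by
        rw [List.getD_eq_getElem _ _ (by omega)]
        exact List.drop_eq_getElem_cons (by omega)
      rw [h2]
      simp [List.replicate_succ']
  have := key n le_rfl
  rwa [List.drop_of_length_le (by omega), List.nil_append] at this

theorem tail_replicate (j : ℕ) : (List.replicate (j + 1) (0 : ℚ)).tail = List.replicate j 0 := by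
  simp

theorem dropLast_replicate' (j : ℕ) :
    (List.replicate (j + 1) (0 : ℚ)).dropLast = List.replicate j 0 := by
  simp

/-- **Rigidity of an active chain with an inert list.** -/
theorem abs_rigid {k n l0 : ℕ} (hAL : ∀ e, e + l0 ≤ n → S_AL k e) (ζ : List ℚ → ℚ)
    (hζ : ∀ j, ζ (List.replicate j 0) = 0) (H : Wd → List ℚ → ℚ)
    (hpol : ∀ L, PolyW (fun t => H t L))
    (heq : ∀ (u : ℕ) (L : List ℚ) (A : Wd), u + L.length = n + 1 → l0 ≤ L.length → Opn k u A →
      alt A = ζ L → ∃ A1 A2 : Wd, Opn k u A1 ∧ Opn k u A2 ∧ zr A1 = zr A ∧ zr A2 = zr A ∧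
        mv (fun t => H t L) A + (if l0 < L.length then H A1 L.tail - H A2 L.dropLast else 0) = 0)
    (u : ℕ) (L : List ℚ) (A : Wd) (hu : u + L.length = n) (hl : l0 ≤ L.length)
    (hA : Opn k u A) : H A L = H (zr A) (List.replicate L.length 0) := by
  -- constancy in the active variables
  have hU : ∀ (j : ℕ) (L : List ℚ), L.length = j → l0 ≤ j → ∀ (u : ℕ) (A : Wd), u + j = n →
      Opn k u A → H A L = H (zr A) L := by
    intro j
    induction j with
    | zero =>
      intro L hL hl u A hu hA
      refine AL_inhom (hAL u (by omega)) (ζ L) (fun _ => 0) (fun t => H t L) (hpol L)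
        (fun W hW hz => ?_) A hA
      obtain ⟨A1, A2, -, -, -, -, h5⟩ := heq (u + 1) L W (by omega) (by omega) hW hz
      rw [if_neg (by omega), add_zero] at h5
      exact h5
    | succ j ih =>
      intro L hL hl u A hu hA
      refine AL_inhom (hAL u (by omega)) (ζ L)
        (fun W => - (if l0 < L.length then H W L.tail - H W L.dropLast else 0))
        (fun t => H t L) (hpol L) (fun W hW hz => ?_) A hA
      obtain ⟨A1, A2, h1, h2, h3, h4, h5⟩ := heq (u + 1) L W (by omega) (by omega) hW hz
      by_cases hlt : l0 < L.length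
      · rw [if_pos hlt] at h5 ⊢
        rw [ih L.tail (by simp [hL]) (by omega) (u + 1) A1 (by omega) h1,
          ih L.dropLast (by simp [hL]) (by omega) (u + 1) A2 (by omega) h2, h3, h4] at h5
        linarith
      · rw [if_neg hlt] at h5 ⊢
        linarith
  -- constancy in the inert variables
  have hD : ∀ (u : ℕ) (L : List ℚ) (A : Wd), u + L.length = n → l0 ≤ L.length → Opn k u A →
      H (zr A) L = H (zr A) (List.replicate L.length 0) := by
    intro u
    induction u with
    | zero =>
      intro L A hu hl hA
      refine shift_const (n := L.length) (h := fun M => H (zr A) M) (fun L' hL' => ?_) L rfl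
      obtain ⟨a, b, V, rfl, hV1, hV2⟩ := hA
      have hA' : Opn k 0 ((true, ζ L') :: zr (V ++ [(true, b)])) :=
        ⟨ζ L', 0, zr V, by rw [zr_append, zr_cons]; rfl, by rw [nmk_zr, hV1], by rw [zr_length, hV2]⟩
      have hz' : zr ((true, ζ L') :: zr (V ++ [(true, b)])) = zr ((true, a) :: (V ++ [(true, b)])) := by
        rw [zr_cons, zr_cons, zr_zr]
      obtain ⟨A1, A2, h1, h2, h3, h4, h5⟩ := heq 0 L' _ (by omega) (by omega) hA'
        (by simp only [alt, if_true]; rw [alt_zr, sub_zero])
      rw [if_pos (by omega), mv_eq, mvl_opn_zero hA',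
        hU L.length L'.tail (by simp [hL']) hl 0 A1 hu h1,
        hU L.length L'.dropLast (by simp [hL']) hl 0 A2 hu h2, h3, h4, hz'] at h5
      simp only [List.map_nil, List.sum_nil, zero_add] at h5
      linarith
    | succ u ih =>
      intro L A hu hl hA
      -- the moves give a constant
      have hconst : ∀ (L' : List ℚ) (A' : Wd), L'.length = L.length + 1 → Opn k (u + 1) A' →
          mv (fun t => H t L') A' =
            mv (fun t => H t (List.replicate (L.length + 1) 0)) (zr A') := by
        intro L' A' hL' hA'
        rw [← mv_zr]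
        apply mv_congr
        intro p hp
        obtain ⟨u', hu', hp'⟩ := opn_mvl hA' hp
        have : u' = u := by omega
        subst this
        rw [hU _ L' rfl (by omega) u' p.2 (by omega) hp', ih L' p.2 (by omega) (by omega) hp', hL']
      have h0 : mv (fun t => H t (List.replicate (L.length + 1) 0)) (zr A) = 0 := by
        obtain ⟨A1, A2, h1, h2, h3, h4, h5⟩ := heq (u + 1) (List.replicate (L.length + 1) 0) (zr A)
          (by simp; omega) (by simp; omega) (opn_zr hA) (by rw [alt_zr, hζ])
        rw [if_pos (by simp; omega), tail_replicate, dropLast_replicate',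
          hU L.length (List.replicate L.length 0) (by simp) hl (u + 1) A1 hu h1,
          hU L.length (List.replicate L.length 0) (by simp) hl (u + 1) A2 hu h2, h3, h4] at h5
        linarith
      refine shift_const (n := L.length) (h := fun M => H (zr A) M) (fun L' hL' => ?_) L rfl
      obtain ⟨a, b, V, rfl, hV1, hV2⟩ := hA
      have hA' : Opn k (u + 1) ((true, ζ L') :: zr (V ++ [(true, b)])) :=
        ⟨ζ L', 0, zr V, by rw [zr_append, zr_cons]; rfl, by rw [nmk_zr, hV1], by rw [zr_length, hV2]⟩
      have hz' : zr ((true, ζ L') :: zr (V ++ [(true, b)])) = zr ((true, a) :: (V ++ [(true, b)])) := by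
        rw [zr_cons, zr_cons, zr_zr]
      obtain ⟨A1, A2, h1, h2, h3, h4, h5⟩ := heq (u + 1) L' _ (by omega) (by omega) hA'
        (by simp only [alt, if_true]; rw [alt_zr, sub_zero])
      rw [if_pos (by omega), hconst L' _ hL' hA', hz', h0,
        hU L.length L'.tail (by simp [hL']) hl (u + 1) A1 hu h1,
        hU L.length L'.dropLast (by simp [hL']) hl (u + 1) A2 hu h2, h3, h4, hz'] at h5
      linarith
  rw [hU L.length L rfl hl u A hu hA, hD u L A hu hl hA]

end Pent
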