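import Pool.Agent.Lib.MP_a57f33_nt.PN.N.Step

/-!
# Pentagon project (MP_a57f33_nt): cyclic chains
-/

set_option autoImplicit false

namespace Pent

/-- the equation for cyclic chains with `k + 2` marks, cut in front of a mark: the first mark may
also move to the left onto the last position -/
def CycEq (k e : ℕ) (F : Wd → ℚ) : Prop :=
  ∀ (u : ℕ) (I : List ℚ) (A : Wd), u + I.length = e + 1 → Opn k u A → alt A = 0 →
    mv F (A ++ bw I) -
      (if I = [] then 0 else F ((true, I.getLastD 0) :: (A ++ bw I.dropLast).tail)) = 0

/-- **Rigidity of open chains implies rigidity of cyclic chains.** -/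
theorem cyc_of_AL {k e : ℕ} (h : ∀ e', e' ≤ e → S_AL k e') (F : Wd → ℚ) (hF : PolyW F)
    (hE : CycEq k e F) (u : ℕ) (I : List ℚ) (A : Wd) (hu : u + I.length = e) (hA : Opn k u A) :
    F (A ++ bw I) = F (zr (A ++ bw I)) := by
  have main := abs_rigid (k := k) (n := e) (l0 := 0) (fun e' he' => h e' (by omega))
    (fun _ => 0) (fun _ => rfl) (fun A L => F (A ++ bw L))
    (fun L => by
      have := hF.append [] (bw L)
      simpa using this)
    (fun u L A hu _ hA halt => by
      have hW := hE u L A hu hA halt
      obtain ⟨a, b, V, rfl, hV1, hV2⟩ := hA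
      have e2 : (true, a) :: (V ++ [(true, b)]) ++ bw L =
          ((true, a) :: V) ++ (true, b) :: bw L := by simp
      rw [e2, mv_append, mv_mark_bw] at hW
      refine ⟨(true, a) :: (V ++ [(true, L.headD 0)]), (true, L.getLastD 0) :: (V ++ [(true, b)]),
        ⟨a, L.headD 0, V, rfl, hV1, hV2⟩, ⟨L.getLastD 0, b, V, rfl, hV1, hV2⟩, ?_, ?_, ?_⟩
      · simp [zr]
      · simp [zr]
      · refine Eq.trans ?_ hW
        cases L with
        | nil => simp
        | cons g I =>
          rw [if_pos (by simp), if_neg (by simp), if_neg (by simp)]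
          simp only [List.headD_cons, List.tail_cons, List.cons_append, List.append_assoc,
            List.nil_append]
          ring)
  rw [main u I A hu (by omega) hA, zr_append, zr_bw]

end Pent
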