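import Pool.Agent.Lib.MP_a57f33_nt.PN.DefsF

/-!
# Pentagon project (MP_a57f33_nt): chains with marks

A chain is a list of positions, `(true, y)` is a mark at `y`, `(false, g)` an unmarked position.
A mark may move onto an adjacent unmarked position: to the right with sign `+`, to the left with
sign `-`; its old position disappears.
-/

set_option autoImplicit false

namespace Pent

/-- number of marks -/
def nmk : Wd → ℕ
  | [] => 0
  | y :: W => (if y.1 then 1 else 0) + nmk W

/-- alternating sum of the marked positions -/
def alt : Wd → ℚ
  | [] => 0
  | y :: W => if y.1 then y.2 - alt W else alt W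

/-- all positions moved to `0` -/
def zr (W : Wd) : Wd := W.map fun y => (y.1, 0)

/-- the sum over the moves of the marks -/
def mv : (Wd → ℚ) → Wd → ℚ
  | _, [] => 0
  | _, [_] => 0
  | F, x :: y :: W =>
      (if x.1 = y.1 then 0 else if x.1 then F ((true, y.2) :: W) else - F ((true, x.2) :: W))
      + mv (fun t => F (x :: t)) (y :: W)

/-- chains which begin and end with a mark, with `k` inner marks and `e` unmarked positions -/
def Opn (k e : ℕ) (W : Wd) : Prop :=
  ∃ (a b : ℚ) (V : Wd), W = (true, a) :: (V ++ [(true, b)]) ∧ nmk V = k ∧ V.length = k + e

/-- **Rigidity of open chains** with `k + 2` marks and `e` unmarked positions: a polynomial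
function for which the moves cancel whenever the alternating sum of the marks is `0` depends only
on the pattern. -/
def S_AL (k e : ℕ) : Prop :=
  ∀ F : Wd → ℚ, PolyW F →
    (∀ W, Opn k (e + 1) W → alt W = 0 → mv F W = 0) →
    ∀ W, Opn k e W → F W = F (zr W)

end Pent
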