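import Pool.Agent.Lib.MP_a57f33_nt.PN.N.Neck
import Pool.Agent.Lib.MP_a57f33_nt.PN.N.Cyc

/-!
# Pentagon project (MP_a57f33_nt): necklaces and cyclic chains

The positions of a cyclic chain are the places between the letters of a necklace, the marks are the
places where the type of the letter changes, the momentum of a letter is the difference of the
positions on its two sides.
-/

set_option autoImplicit false

namespace Pent

/-! ### changes of type -/

/-- number of changes in a linear list -/
def chb : List Bool → ℕ
  | [] => 0
  | [_] => 0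
  | x :: y :: w => (if x = y then 0 else 1) + chb (y :: w)

/-- number of changes in a cyclic list -/
def chcb : List Bool → ℕ
  | [] => 0
  | x :: w => chb (x :: (w ++ [x]))

/-- number of changes of type in a cyclic word -/
def chc (w : Wd) : ℕ := chcb (w.map fun y => y.1)

theorem chb_append (A : List Bool) : ∀ (x : Bool) (B : List Bool),
    chb (A ++ x :: B) = chb (A ++ [x]) + chb (x :: B) := by
  induction A with
  | nil => intro x B; simp [chb]
  | cons a A ih =>
    intro x B
    cases A with
    | nil => simp [chb]
    | cons b A =>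
      have := ih x B
      simp only [List.cons_append] at this ⊢
      simp only [chb]
      rw [this]
      omega

theorem chcb_rot1 (x : Bool) (w : List Bool) : chcb (x :: w) = chcb (w ++ [x]) := by
  cases w with
  | nil => rfl
  | cons y w =>
    have e : (y :: w) ++ [x] = y :: (w ++ [x]) := rfl
    rw [e]
    simp only [chcb]
    have e1 : x :: ((y :: w) ++ [x]) = [x] ++ y :: (w ++ [x]) := rfl
    have e2 : y :: (w ++ [x] ++ [y]) = (y :: w) ++ x :: [y] := by simp
    rw [e1, chb_append, e2, chb_append (y :: w) x [y]]
    have e3 : (y :: w) ++ [x] = y :: (w ++ [x]) := rfl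
    rw [e3]
    simp only [List.cons_append, List.nil_append, chb]
    cases x <;> cases y <;> simp <;> omega

theorem chcb_rot (X : List Bool) : ∀ Y : List Bool, chcb (X ++ Y) = chcb (Y ++ X) := by
  induction X with
  | nil => intro Y; simp
  | cons x X ih =>
    intro Y
    rw [List.cons_append, chcb_rot1, List.append_assoc, ih, List.append_assoc]
    rfl

/-! ### the letters of a chain -/

/-- the letters of a chain: type `x` and position `h` on the left, position `h0` on the right -/
def ltr : Wd → Bool → ℚ → ℚ → Wd
  | [], x, h, h0 => [(x, h0 - h)]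
  | y :: W, x, h, h0 => (x, y.2 - h) :: ltr W (if y.1 then !x else x) y.2 h0

/-- the type of the last letter -/
def lty : Wd → Bool → Bool
  | [], x => x
  | y :: W, x => lty W (if y.1 then !x else x)

theorem ltr_length (W : Wd) : ∀ x h h0, (ltr W x h h0).length = W.length + 1 := by
  induction W with
  | nil => intro x h h0; rfl
  | cons y W ih => intro x h h0; simp [ltr, ih]

theorem tot_ltr (W : Wd) : ∀ x h h0, tot (ltr W x h h0) = h0 - h := by
  induction W with
  | nil => intro x h h0; simp [ltr, tot]
  | cons y W ih =>
    intro x h h0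
    rw [ltr, tot_cons, ih]
    ring

theorem csum_cons (y : Bool × ℚ) (B : Wd) :
    csum (y :: B) = (if y.1 then y.2 else 0) + csum B := by
  simp [csum]

theorem csum_ltr (W : Wd) : ∀ x h h0, csum (ltr W x h h0) =
    (if x then alt W - h else - alt W) + (if lty W x then h0 else 0) := by
  induction W with
  | nil =>
    intro x h h0
    cases x <;> simp [ltr, csum, alt, lty]
    ring
  | cons y W ih =>
    intro x h h0
    rw [ltr, csum_cons, ih, lty]
    obtain ⟨y1, y2⟩ := y
    cases x <;> cases y1 <;> simp [alt] <;> ring

theorem lty_eq (W : Wd) : ∀ x, lty W x = if nmk W % 2 = 0 then x else !x := by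
  induction W with
  | nil => intro x; simp [lty, nmk]
  | cons y W ih =>
    intro x
    rw [lty, ih]
    obtain ⟨y1, y2⟩ := y
    cases y1
    · simp [nmk]
    · simp only [nmk, if_true]
      rcases Nat.mod_two_eq_zero_or_one (nmk W) with h | h
      · rw [if_pos h, if_neg (by omega)]
      · rw [if_neg (by omega), if_pos (by omega)]
        simp

theorem ltr_concat (W : Wd) : ∀ (y : Bool × ℚ) x h h0, ltr (W ++ [y]) x h h0 =
    ltr W x h y.2 ++ [(if y.1 then !(lty W x) else lty W x, h0 - y.2)] := by
  induction W with
  | nil => intro y x h h0; simp [ltr, lty]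
  | cons z W ih =>
    intro y x h h0
    rw [List.cons_append, ltr, ltr, lty, ih]
    simp

theorem ltr_last (W : Wd) (x : Bool) (h : ℚ) : ∃ (v : Wd) (a : ℚ), v.length = W.length ∧
    ∀ h0, ltr W x h h0 = v ++ [(lty W x, h0 + a)] := by
  rcases List.eq_nil_or_concat W with rfl | ⟨W', y, rfl⟩
  · exact ⟨[], -h, rfl, fun h0 => by simp [ltr, lty, sub_eq_add_neg]⟩
  · refine ⟨ltr W' x h y.2, -y.2, by rw [ltr_length]; simp, fun h0 => ?_⟩
    rw [List.concat_eq_append, ltr_concat]
    have : lty (W' ++ [y]) x = if y.1 then !(lty W' x) else lty W' x := by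
      clear h h0
      induction W' generalizing x with
      | nil => simp [lty]
      | cons z W' ih => rw [List.cons_append, lty, lty, ih]
    rw [this, sub_eq_add_neg]

theorem ltr_first (W : Wd) (x : Bool) (h0 : ℚ) : ∃ (v : Wd) (a : ℚ), v.length = W.length ∧
    ∀ h, ltr W x h h0 = (x, a - h) :: v := by
  cases W with
  | nil => exact ⟨[], h0, rfl, fun h => rfl⟩
  | cons y W => exact ⟨ltr W (if y.1 then !x else x) y.2 h0, y.2, by rw [ltr_length]; simp,
      fun h => rfl⟩

theorem chb_ltr (W : Wd) : ∀ x h h0, chb ((ltr W x h h0).map fun y => y.1) = nmk W := by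
  induction W with
  | nil => intro x h h0; simp [ltr, chb, nmk]
  | cons y W ih =>
    intro x h h0
    obtain ⟨v, a, -, hv⟩ := ltr_first W (if y.1 then !x else x) h0
    have h1 := ih (if y.1 then !x else x) y.2 h0
    rw [hv] at h1
    rw [ltr, hv, List.map_cons, List.map_cons, chb]
    rw [List.map_cons] at h1
    rw [h1, nmk]
    obtain ⟨y1, y2⟩ := y
    cases x <;> cases y1 <;> simp

theorem chc_ltr (W : Wd) (x : Bool) (h h0 : ℚ) : chc (ltr W x h h0) =
    nmk W + (if lty W x = x then 0 else 1) := by
  obtain ⟨v, a, -, hv⟩ := ltr_first W x h0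
  obtain ⟨w, b, -, hw⟩ := ltr_last W x h
  have h1 := chb_ltr W x h h0
  have e : chc (ltr W x h h0) = chb (((ltr W x h h0).map fun y => y.1) ++ [x]) := by
    rw [hv h]
    rfl
  rw [e, hw h0, List.map_append, List.map_cons, List.map_nil, List.append_assoc]
  have e2 : (w.map fun y => y.1) ++ ([lty W x] ++ [x]) = (w.map fun y => y.1) ++ lty W x :: [x] := rfl
  rw [e2, chb_append]
  rw [hw h0, List.map_append, List.map_cons, List.map_nil] at h1
  rw [h1]
  rfl

theorem ltr_zero (W : Wd) : ∀ x, ∀ y ∈ ltr (zr W) x 0 0, y.2 = 0 := by
  induction W with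
  | nil => intro x y hy; simp [zr, ltr] at hy; simp [hy]
  | cons z W ih =>
    intro x y hy
    rw [zr_cons, ltr, List.mem_cons] at hy
    rcases hy with rfl | hy
    · simp
    · exact ih _ y hy

theorem ltr_zero_mark (W : Wd) (hW : nmk W = 0) : ∀ h h0, ∃ v, ltr W false h h0 = bw v := by
  induction W with
  | nil => intro h h0; exact ⟨[h0 - h], rfl⟩
  | cons y W ih =>
    intro h h0
    obtain ⟨y1, y2⟩ := y
    cases y1
    · obtain ⟨v, hv⟩ := ih (by simpa [nmk] using hW) y2 h0
      exact ⟨(y2 - h) :: v, by rw [ltr]; simp [hv, bw]⟩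
    · simp [nmk] at hW

theorem ltr_one_mark (W : Wd) (hW : nmk W = 1) : ∀ h h0, ∃ u v, ltr W true h h0 = cw u ++ bw v := by
  induction W with
  | nil => simp [nmk] at hW
  | cons y W ih =>
    intro h h0
    obtain ⟨y1, y2⟩ := y
    cases y1
    · obtain ⟨u, v, hv⟩ := ih (by simpa [nmk] using hW) y2 h0
      exact ⟨(y2 - h) :: u, v, by rw [ltr]; simp [hv, cw]⟩
    · obtain ⟨v, hv⟩ := ltr_zero_mark W (by simpa [nmk] using hW) y2 h0
      exact ⟨[y2 - h], v, by rw [ltr]; simp [hv, cw]⟩

/-- every word with first letter `y` is the list of letters of a chain -/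
theorem exists_ltr (w : Wd) : ∀ (y : Bool × ℚ) (h : ℚ),
    ∃ W, ltr W y.1 h (h + tot (y :: w)) = y :: w := by
  induction w with
  | nil => intro y h; exact ⟨[], by simp [ltr, tot]⟩
  | cons z w ih =>
    intro y h
    obtain ⟨W, hW⟩ := ih z (h + y.2)
    refine ⟨(decide (y.1 ≠ z.1), h + y.2) :: W, ?_⟩
    rw [ltr]
    have e1 : (if (decide (y.1 ≠ z.1), h + y.2).1 = true then !y.1 else y.1) = z.1 := by
      cases y.1 <;> cases z.1 <;> simp
    rw [e1, tot_cons, ← add_assoc, hW]
    simp

/-! ### merging of letters and moves of marks -/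

/-- Merging of letters is moving of marks, up to terms with fewer marks. -/
theorem mrg_ltr (W : Wd) : ∀ (x : Bool) (h h0 : ℚ) (F : Wd → ℚ),
    (∀ W' : Wd, W'.length + 1 = W.length → nmk W' + 2 = nmk W → F (ltr W' x h h0) = 0) →
    (∀ W' : Wd, W'.length + 1 = W.length → nmk W' + 1 = nmk W → F (ltr W' x h h0) = 0) →
    mrg F (ltr W x h h0) = mv (fun t => F (ltr t x h h0)) W -
      (if (W.headD (false, 0)).1 then F (ltr W.tail (!x) h h0) else 0) := by
  induction W with
  | nil => intro x h h0 F _ _; simp [ltr, mrg, mv]
  | cons y W ih =>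
    intro x h h0 F H1 H3
    obtain ⟨m, g⟩ := y
    cases W with
    | nil =>
      cases m
      · simp [ltr, mrg, mv]
      · have h3 := H3 [] (by simp) (by simp [nmk])
        simp only [ltr] at h3
        cases x <;> simp [ltr, mrg, mv, h3]
    | cons z W =>
      obtain ⟨m', g'⟩ := z
      have hI := ih (if m then !x else x) g h0 (fun t => F ((x, g - h) :: t))
        (fun W' h1 h2 => by
          have := H1 ((m, g) :: W') (by simp only [List.length_cons] at h1 ⊢; omega)
            (by simp only [nmk] at h2 ⊢; omega)
          simpa [ltr] using this)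
        (fun W' h1 h2 => by
          have := H3 ((m, g) :: W') (by simp only [List.length_cons] at h1 ⊢; omega)
            (by simp only [nmk] at h2 ⊢; omega)
          simpa [ltr] using this)
      have h11 : m = true → m' = true → F (ltr ((false, g') :: W) x h h0) = 0 := by
        intro e1 e2
        subst e1; subst e2
        exact H1 _ (by simp) (by simp only [nmk]; simp; omega)
      have h12 : m = true → m' = true → F (ltr ((false, g) :: W) x h h0) = 0 := by
        intro e1 e2
        subst e1; subst e2
        exact H1 _ (by simp) (by simp only [nmk]; simp; omega)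
      rw [mv]
      have e0 : ltr ((m, g) :: (m', g') :: W) x h h0 = (x, g - h) ::
          ((if m then !x else x), g' - g) :: ltr W (if m' then !(if m then !x else x)
            else (if m then !x else x)) g' h0 := rfl
      have e1 : ltr ((m', g') :: W) (if m then !x else x) g h0 =
          ((if m then !x else x), g' - g) :: ltr W (if m' then !(if m then !x else x)
            else (if m then !x else x)) g' h0 := rfl
      rw [e0, mrg, ← e1, hI]
      have e2 : ∀ t, F ((x, g - h) :: ltr t (if m then !x else x) g h0)
          = F (ltr ((m, g) :: t) x h h0) := fun t => rfl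
      simp only [e2, List.headD_cons, List.tail_cons]
      have e3 : ∀ s : ℚ, g - h + (g' - g) = g' - h := fun _ => by ring
      rw [e3 0]
      cases m
      · cases m'
        · cases x <;> simp [ltr]
        · cases x <;> simp [ltr] <;> ring
      · cases m'
        · cases x <;> simp [ltr] <;> ring
        · have a1 := h11 rfl rfl
          have a2 := h12 rfl rfl
          simp only [ltr] at a1 a2
          cases x <;> simp [ltr] at a1 a2 ⊢ <;> simp [a1, a2] <;> ring

end Pent
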