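import Pool.Agent.Lib.MP_a57f33_nt.PN.N.Poly

/-!
# Pentagon project (MP_a57f33_nt): rigidity with an inhomogeneous constraint and a source
-/

set_option autoImplicit false

namespace Pent

open MvPolynomial

/-- degree bound on words of length `L` -/
def PD (L N : ℕ) (F : Wd → ℚ) : Prop :=
  ∀ p : List Bool, p.length = L → ∃ Φ : MvPolynomial ℕ ℚ, Φ.totalDegree ≤ N ∧
    ∀ μ : List ℚ, μ.length = L → F (p.zip μ) = eval (fun i => μ.getD i 0) Φ

theorem bound_list (L : ℕ) : ∀ f : List Bool → ℕ, ∃ N, ∀ p : List Bool, p.length = L → f p ≤ N := by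
  induction L with
  | zero =>
    intro f
    refine ⟨f [], fun p hp => ?_⟩
    rw [List.length_eq_zero_iff.mp hp]
  | succ L ih =>
    intro f
    obtain ⟨N1, h1⟩ := ih fun p => f (true :: p)
    obtain ⟨N2, h2⟩ := ih fun p => f (false :: p)
    refine ⟨max N1 N2, fun p hp => ?_⟩
    cases p with
    | nil => simp at hp
    | cons b p =>
      have hp' : p.length = L := by simpa using hp
      cases b
      · exact (h2 p hp').trans (le_max_right _ _)
      · exact (h1 p hp').trans (le_max_left _ _)

theorem PD_of_PolyW {F : Wd → ℚ} (hF : PolyW F) (L : ℕ) : ∃ N, PD L N F := by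
  choose Φ hΦ using hF
  obtain ⟨N, hN⟩ := bound_list L fun p => (Φ p).totalDegree
  exact ⟨N, fun p hp => ⟨Φ p, hN p hp, fun μ hμ => hΦ p μ (by rw [hμ, hp])⟩⟩

theorem map_fst_zip' (p : List Bool) (μ : List ℚ) (h : μ.length = p.length) :
    (p.zip μ).map (fun y => y.1) = p :=
  List.map_fst_zip (by omega)

theorem map_snd_zip' (p : List Bool) (μ : List ℚ) (h : μ.length = p.length) :
    (p.zip μ).map (fun y => y.2) = μ :=
  List.map_snd_zip (by omega)

theorem zip_map_fst_snd (W : Wd) : (W.map fun y => y.1).zip (W.map fun y => y.2) = W := by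
  induction W with
  | nil => rfl
  | cons y W ih => simp [ih]

/-- the top part -/
theorem exists_top {L N : ℕ} {F : Wd → ℚ} (hF : PD L N F) : ∃ G : Wd → ℚ,
    PolyW G ∧ (∀ V : List (Bool × ℚ × ℚ), V.length = L →
      Lead N (fun x => F (inst x V)) (G (ldp V))) ∧
    (∀ M, N = M + 1 → PD L M (fun t => F t - G t)) ∧ (1 ≤ N → ∀ W, G (zr W) = 0) := by
  have h0 : ∀ p : List Bool, ∃ Φ : MvPolynomial ℕ ℚ, p.length = L → Φ.totalDegree ≤ N ∧
      ∀ μ : List ℚ, μ.length = L → F (p.zip μ) = eval (fun i => μ.getD i 0) Φ := by
    intro p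
    by_cases hp : p.length = L
    · obtain ⟨Φ, hΦ⟩ := hF p hp
      exact ⟨Φ, fun _ => hΦ⟩
    · exact ⟨0, fun h => absurd h hp⟩
  choose Φ hΦ using h0
  refine ⟨fun W => eval (fun i => (W.map fun y => y.2).getD i 0)
    (homogeneousComponent N (Φ (W.map fun y => y.1))), ?_, ?_, ?_, ?_⟩
  · intro p
    refine ⟨homogeneousComponent N (Φ p), fun l hl => ?_⟩
    simp only [map_fst_zip' p l hl, map_snd_zip' p l hl]
  · intro V hV
    have hp : (V.map fun v => v.1).length = L := by simpa using hV
    have h1 := lead_poly (Φ (V.map fun v => v.1)) N (hΦ _ hp).1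
      (fun i => (V.map fun v => v.2.1).getD i 0) (fun i => (V.map fun v => v.2.2).getD i 0)
    have e1 : ∀ x : ℚ, F (inst x V) = eval (fun i => (V.map fun v => v.2.1).getD i 0 * x +
        (V.map fun v => v.2.2).getD i 0) (Φ (V.map fun v => v.1)) := by
      intro x
      have h2 := (hΦ _ hp).2 (V.map fun v => v.2.1 * x + v.2.2) (by simpa using hV)
      have h3 : (V.map fun v => v.1).zip (V.map fun v => v.2.1 * x + v.2.2) = inst x V := by
        unfold inst
        rw [List.zip_map']
      rw [h3] at h2
      rw [h2]
      congr 2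
      funext i
      by_cases hi : i < V.length
      · rw [List.getD_eq_getElem _ _ (by simpa using hi), List.getD_eq_getElem _ _ (by simpa using hi),
          List.getD_eq_getElem _ _ (by simpa using hi)]
        simp
      · rw [List.getD_eq_default _ _ (by simpa using hi), List.getD_eq_default _ _ (by simpa using hi),
          List.getD_eq_default _ _ (by simpa using hi)]
        simp
    have e2 : (ldp V).map (fun y => y.1) = V.map fun v => v.1 := by
      unfold ldp
      rw [List.map_map]
      rfl
    have e3 : (ldp V).map (fun y => y.2) = V.map fun v => v.2.1 := by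
      unfold ldp
      rw [List.map_map]
      rfl
    simp only [e1, e2, e3]
    exact h1
  · rintro M rfl p hp
    refine ⟨Φ p - homogeneousComponent (M + 1) (Φ p), ?_, ?_⟩
    · rw [totalDegree, Finset.sup_le_iff]
      intro m hm
      rw [mem_support_iff, coeff_sub, coeff_homogeneousComponent] at hm
      have h2 : m.degree = m.sum fun _ e => e := by
        rw [Finsupp.degree_apply]; rfl
      have h3 : m.degree ≠ M + 1 := by
        intro h
        rw [if_pos h, sub_self] at hm
        exact hm rfl
      rw [if_neg h3, sub_zero] at hm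
      have h4 := le_totalDegree (mem_support_iff.mpr hm)
      have h5 := (hΦ p hp).1
      omega
    · intro μ hμ
      have hμ' : μ.length = p.length := by rw [hμ, hp]
      simp only [map_fst_zip' p μ hμ', map_snd_zip' p μ hμ', map_sub]
      rw [(hΦ p hp).2 μ hμ]
  · intro hN W
    have e1 : (fun i => ((zr W).map fun y => y.2).getD i 0) = fun _ => (0 : ℚ) := by
      funext i
      by_cases hi : i < W.length
      · rw [List.getD_eq_getElem _ _ (by simpa [zr] using hi)]
        simp [zr]
      · rw [List.getD_eq_default _ _ (by simpa [zr] using hi)]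
    simp only [e1]
    have e2 : ∀ Ψ : MvPolynomial ℕ ℚ, eval (fun _ => (0 : ℚ)) Ψ = coeff 0 Ψ := by
      intro Ψ
      rw [← constantCoeff_eq, ← eval_zero']
    rw [e2, coeff_homogeneousComponent, if_neg]
    simp
    omega

/-- **Rigidity with a source and an inhomogeneous constraint.** -/
theorem AL_inhom {k e : ℕ} (h : S_AL k e) (z : ℚ) (c : Wd → ℚ) (F : Wd → ℚ) (hF : PolyW F)
    (heq : ∀ W, Opn k (e + 1) W → alt W = z → mv F W = c (zr W)) :
    ∀ W, Opn k e W → F W = F (zr W) := by
  obtain ⟨N, hN⟩ := PD_of_PolyW hF (k + 2 + e)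
  clear hF
  induction N generalizing F c with
  | zero =>
    intro W hW
    obtain ⟨-, hl, -, -⟩ := (opn_iff k e W).mp hW
    obtain ⟨Φ, h1, h2⟩ := hN (W.map fun y => y.1) (by simpa using hl)
    have h3 := h2 (W.map fun y => y.2) (by simpa using hl)
    have h4 := h2 ((zr W).map fun y => y.2) (by simpa [zr] using hl)
    rw [zip_map_fst_snd] at h3
    rw [← zr_map_fst, zip_map_fst_snd] at h4
    rw [h3, h4, totalDegree_eq_zero_iff_eq_C.mp (by omega : Φ.totalDegree = 0)]
    simp
  | succ N ih =>
    obtain ⟨G, g1, g2, g3, g4⟩ := exists_top hN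
    -- the top part satisfies the homogeneous equation
    have hG : ∀ W, Opn k (e + 1) W → alt W = 0 → mv G W = 0 := by
      rintro W ⟨a, b, V, rfl, hV1, hV2⟩ halt
      set V' : List (Bool × ℚ × ℚ) :=
        (true, (a, z)) :: ((V ++ [(true, b)]).map fun y => (y.1, (y.2, 0))) with hV'
      have hlen : V'.length = k + 2 + e + 1 := by
        rw [hV']; simp [hV2]; omega
      have hld : ldp V' = (true, a) :: (V ++ [(true, b)]) := by
        rw [hV', ldp, List.map_cons, List.map_map]
        have e : ∀ U : Wd, U.map ((fun v : Bool × ℚ × ℚ => (v.1, v.2.1)) ∘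
            fun y : Bool × ℚ => (y.1, (y.2, (0 : ℚ)))) = U := by
          intro U
          conv_rhs => rw [← List.map_id U]
          apply List.map_congr_left
          intro y _
          rfl
        rw [e]
      have hlead := lead_mv (N + 1) V' (fun _ t => F t) G (fun V'' h'' => g2 V'' (by omega))
      rw [hld] at hlead
      have hinst : ∀ x : ℚ, inst x V' = (true, a * x + z) ::
          ((V ++ [(true, b)]).map fun y => (y.1, y.2 * x)) := by
        intro x
        rw [hV', inst, List.map_cons, List.map_map]
        simp [Function.comp]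
      have haltx : ∀ (x : ℚ) (U : Wd), alt (U.map fun y => (y.1, y.2 * x)) = alt U * x := by
        intro x U
        induction U with
        | nil => simp [alt]
        | cons y U ihU =>
          rw [List.map_cons]
          simp only [alt]
          rw [ihU]
          split <;> ring
      have hnmk : ∀ (x : ℚ) (U : Wd), nmk (U.map fun y => (y.1, y.2 * x)) = nmk U := by
        intro x U
        induction U with
        | nil => simp [nmk]
        | cons y U ihU =>
          rw [List.map_cons]
          simp only [nmk]
          rw [ihU]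
      have hzr : ∀ (x : ℚ) (U : Wd), zr (U.map fun y => (y.1, y.2 * x)) = zr U := by
        intro x U
        simp [zr, List.map_map, Function.comp]
      have hconst : ∀ x : ℚ, mv F (inst x V') = c (zr ((true, a) :: (V ++ [(true, b)]))) := by
        intro x
        rw [heq (inst x V') ?_ ?_]
        · rw [hinst, zr_cons, zr_cons, hzr]
        · rw [hinst]
          refine ⟨a * x + z, b * x, V.map (fun y => (y.1, y.2 * x)), ?_, ?_, ?_⟩
          · rw [List.map_append]; simp
          · rw [hnmk, hV1]
          · rw [List.length_map, hV2]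
        · rw [hinst]
          simp only [alt, if_true] at halt ⊢
          rw [haltx]
          linear_combination x * halt
      have h1 : Lead (N + 1) (fun x => mv F (inst x V')) 0 := by
        simp only [hconst]
        exact (Lead.const _).up (by omega)
      exact hlead.unique h1
    have hG0 : ∀ W, Opn k e W → G W = 0 := fun W hW => by
      rw [h G g1 hG W hW]
      exact g4 (by omega) W
    intro W hW
    have := ih (F := fun t => F t - G t) (c := c) (fun U hU hz => ?_) (g3 N rfl) W hW
    · simp only [hG0 W hW, g4 (by omega) W, sub_zero] at this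
      exact this
    · rw [← heq U hU hz]
      apply mv_congr
      intro p hp
      obtain ⟨e', he, hp'⟩ := opn_mvl hU hp
      have he' : e' = e := by omega
      subst he'
      rw [hG0 _ hp', sub_zero]

end Pent
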