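import Pool.Agent.Lib.MP_a57f33_nt.PN.N.Gap

/-!
# Pentagon project (MP_a57f33_nt): a necklace function vanishes
-/

set_option autoImplicit false

namespace Pent

open MvPolynomial

/-- the function of cyclic chains which belongs to a necklace function -/
def FC (C : Wd → ℚ) : Wd → ℚ
  | [] => 0
  | y :: W => C (ltr W true y.2 y.2)

/-! ### polynomiality -/

/-- types of the letters -/
def tyl : List Bool → Bool → List Bool
  | [], x => [x]
  | y :: q, x => x :: tyl q (if y then !x else x)

/-- momenta of the letters -/
def dfl : List ℚ → ℚ → ℚ → List ℚ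
  | [], h, h0 => [h0 - h]
  | a :: l, h, h0 => (a - h) :: dfl l a h0

theorem tyl_length (q : List Bool) : ∀ x, (tyl q x).length = q.length + 1 := by
  induction q with
  | nil => intro x; rfl
  | cons y q ih => intro x; simp [tyl, ih]

theorem dfl_length (l : List ℚ) : ∀ h h0, (dfl l h h0).length = l.length + 1 := by
  induction l with
  | nil => intro h h0; rfl
  | cons a l ih => intro h h0; simp [dfl, ih]

theorem ltr_zip (q : List Bool) : ∀ (l : List ℚ) (x : Bool) (h h0 : ℚ), l.length = q.length →
    ltr (q.zip l) x h h0 = (tyl q x).zip (dfl l h h0) := by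
  induction q with
  | nil =>
    intro l x h h0 hl
    rw [List.length_eq_zero_iff.mp hl]
    rfl
  | cons y q ih =>
    intro l x h h0 hl
    cases l with
    | nil => simp at hl
    | cons a l =>
      rw [List.zip_cons_cons, ltr, tyl, dfl, List.zip_cons_cons]
      rw [ih l _ a h0 (by simpa using hl)]

theorem dfl_getD (l : List ℚ) : ∀ (h h0 : ℚ) (i : ℕ), i ≤ l.length →
    (dfl l h h0).getD i 0 = (if i < l.length then l.getD i 0 else h0) - (h :: l).getD i 0 := by
  induction l with
  | nil =>
    intro h h0 i hi
    have : i = 0 := by simpa using hi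
    subst this
    simp [dfl]
  | cons a l ih =>
    intro h h0 i hi
    cases i with
    | zero => simp [dfl]
    | succ i =>
      rw [dfl, List.getD_cons_succ, ih a h0 i (by simpa using hi), List.getD_cons_succ]
      simp only [List.length_cons, add_lt_add_iff_right, List.getD_cons_succ]

theorem polyW_FC {C : Wd → ℚ} (hC : PolyW C) : PolyW (FC C) := by
  intro p
  cases p with
  | nil => exact ⟨0, fun l _ => by simp [FC]⟩
  | cons x q =>
    have h := (hC (tyl q true)).subst (n := q.length + 1)
      (fun i => (if i < q.length then X (i + 1) else X 0) - X i)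
      (fun l => dfl l.tail (l.headD 0) (l.headD 0)) ?_
    · obtain ⟨Φ, hΦ⟩ := h
      refine ⟨Φ, fun l hl => ?_⟩
      rw [← hΦ l (by simpa using hl)]
      cases l with
      | nil => simp at hl
      | cons a l =>
        simp only [List.zip_cons_cons, FC, List.tail_cons, List.headD_cons]
        rw [ltr_zip q l true a a (by simpa using hl)]
    · intro l hl
      cases l with
      | nil => simp at hl
      | cons a l =>
        have hl' : l.length = q.length := by simpa using hl
        simp only [List.tail_cons, List.headD_cons]
        refine ⟨by rw [dfl_length, tyl_length, hl'], fun i hi => ?_⟩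
        rw [tyl_length] at hi
        rw [dfl_getD _ _ _ _ (by omega), map_sub, eval_X, hl']
        congr 1
        split
        · rw [eval_X, List.getD_cons_succ]
        · rw [eval_X, List.getD_cons_zero]

/-! ### rotations -/

section

variable {m : ℕ} {C : Wd → ℚ}

theorem Neck.rotX (hN : Neck m C) (X : Wd) : ∀ Y : Wd, (X ++ Y).length = m + 1 →
    tot (X ++ Y) = 0 → C (X ++ Y) = C (Y ++ X) := by
  induction X with
  | nil => intro Y _ _; simp
  | cons x X ih =>
    intro Y hl ht
    have h1 := hN.rot x (X ++ Y) (by simpa using hl) (by simpa using ht)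
    rw [List.cons_append, h1, List.append_assoc, ih (Y ++ [x]) (by simp at hl ⊢; omega)
      (by rw [List.cons_append, tot_cons, tot_append] at ht
          rw [tot_append, tot_append]
          simp only [tot, List.map_cons, List.map_nil, List.sum_cons, List.sum_nil] at ht ⊢
          linarith)]
    simp

theorem split_word (w : Wd) : (∃ (X Y : Wd) (a b : ℚ), w = X ++ (false, a) :: (true, b) :: Y) ∨
    ∃ u v : List ℚ, w = cw u ++ bw v := by
  induction w with
  | nil => exact Or.inr ⟨[], [], rfl⟩
  | cons x w ih =>
    rcases ih with ⟨X, Y, a, b, rfl⟩ | ⟨u, v, rfl⟩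
    · exact Or.inl ⟨x :: X, Y, a, b, rfl⟩
    · obtain ⟨x1, x2⟩ := x
      cases x1
      · cases u with
        | nil => exact Or.inr ⟨[], x2 :: v, rfl⟩
        | cons μ u => exact Or.inl ⟨[], cw u ++ bw v, x2, μ, rfl⟩
      · exact Or.inr ⟨x2 :: u, v, rfl⟩

/-- Every necklace is a chain with first letter `c` and last letter `b`, or the function vanishes
on it. -/
theorem Neck.std (hN : Neck m C) (w : Wd) (hl : w.length = m + 1) (ht : tot w = 0) :
    C w = 0 ∨ ∃ W : Wd, W.length = m ∧ lty W true = false ∧ C w = C (ltr W true 0 0) ∧
      chc w = nmk W + 1 := by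
  rcases split_word w with ⟨X, Y, a, b, rfl⟩ | ⟨u, v, rfl⟩
  · right
    have e : X ++ (false, a) :: (true, b) :: Y = (X ++ [(false, a)]) ++ (true, b) :: Y := by simp
    rw [e] at hl ht ⊢
    have hr := hN.rotX _ _ hl ht
    have hc : chc ((X ++ [(false, a)]) ++ (true, b) :: Y) =
        chc ((true, b) :: Y ++ (X ++ [(false, a)])) := by
      have h1 := chcb_rot ((X ++ [(false, a)]).map fun y => y.1)
        (((true, b) :: Y : Wd).map fun y => y.1)
      rw [← List.map_append, ← List.map_append] at h1
      exact h1
    obtain ⟨W, hW⟩ := exists_ltr (Y ++ (X ++ [(false, a)])) (true, b) 0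
    have ht' : tot ((true, b) :: (Y ++ (X ++ [(false, a)]))) = 0 := by
      rw [tot_append] at ht
      rw [← List.cons_append, tot_append]
      linarith
    rw [ht', add_zero] at hW
    have hlty : lty W true = false := by
      obtain ⟨v, c, -, hv⟩ := ltr_last W true 0
      rw [hv 0] at hW
      have h1 : (true, b) :: (Y ++ (X ++ [(false, a)])) = ((true, b) :: (Y ++ X)) ++ [(false, a)] := by
        simp
      rw [h1] at hW
      have h2 := (List.append_inj' hW rfl).2
      simpa using (Prod.ext_iff.mp (List.cons.inj h2).1).1
    refine ⟨W, ?_, hlty, ?_, ?_⟩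
    · have := congrArg List.length hW
      rw [ltr_length] at this
      simp at this hl
      omega
    · rw [hr, List.cons_append, ← hW]
    · rw [hc, List.cons_append, ← hW, chc_ltr, hlty]
      simp
  · left
    exact hN.two u v

/-- the equation for cyclic chains -/
theorem Neck.cycEq (hN : Neck m C) (r e : ℕ) (hm : 2 * r + 2 + e = m + 1)
    (hV : ∀ w : Wd, w.length = m + 1 → tot w = 0 → chc w ≤ 2 * r → C w = 0) :
    CycEq (2 * r) e (FC C) := by
  rintro u I A hu ⟨a, b, V, rfl, hV1, hV2⟩ halt
  obtain ⟨W, hWdef⟩ : ∃ W : Wd, W = V ++ (true, b) :: bw I := ⟨_, rfl⟩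
  have hU : (true, a) :: (V ++ [(true, b)]) ++ bw I = (true, a) :: W := by rw [hWdef]; simp
  have hnW : nmk W = 2 * r + 1 := by
    rw [hWdef, nmk_append]
    simp only [nmk, nmk_bw, if_true]
    omega
  have hlW : W.length = m + 1 := by
    rw [hWdef]
    simp [bw, hV2]
    omega
  have hltyW : lty W true = false := by
    rw [lty_eq, hnW, if_neg (by omega)]; rfl
  have haW : alt W = a := by
    have h1 : alt ((true, a) :: (V ++ [(true, b)]) ++ bw I) = 0 := by
      rw [alt_append, halt, alt_bw]; simp
    rw [hU] at h1
    simp only [alt, if_true] at h1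
    linarith
  -- first and last letter
  obtain ⟨W2, y, hWy⟩ : ∃ (W2 : Wd) (y : Bool × ℚ), W = W2 ++ [y] := by
    rcases List.eq_nil_or_concat W with h0 | ⟨W2, y, h0⟩
    · rw [h0] at hlW; simp at hlW
    · exact ⟨W2, y, by rw [h0]; simp⟩
  have hlW2 : W2.length = m := by rw [hWy] at hlW; simpa using hlW
  obtain ⟨v, c, hvl, hv⟩ := ltr_first W2 true y.2
  rw [hlW2] at hvl
  have hω : ∀ h : ℚ, ∀ h0 : ℚ, ltr W true h h0 = (true, c - h) :: (v ++ [(false, h0 - y.2)]) := by
    intro h h0
    have h1 := ltr_concat W2 y true h h0
    rw [← hWy, hv h] at h1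
    obtain ⟨w', b', -, hw'⟩ := ltr_last W true h
    have h2 := hw' h0
    rw [h1, hltyW] at h2
    have h3 := (List.append_inj' h2 rfl).2
    have h4 := (Prod.ext_iff.mp (List.cons.inj h3).1).1
    simp only at h4
    rw [h1, h4]
    rfl
  have hN0 := hN.eq (c - a) (a - y.2) v hvl (by rw [← hω, tot_ltr]; ring)
    (by rw [← hω, csum_ltr, hltyW, haW]; simp)
  rw [← hω a a] at hN0
  have hsum : a - y.2 + (c - a) = c - y.2 := by ring
  rw [hsum] at hN0
  -- merging
  have hmrg : mrg C (ltr W true a a) = mv (fun t => C (ltr t true a a)) W := by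
    rw [mrg_ltr W true a a C]
    · have : (if (W.headD (false, 0)).1 then C (ltr W.tail (!true) a a) else 0) = 0 := by
        by_cases hh : (W.headD (false, 0)).1 = true
        · rw [if_pos hh]
          cases W with
          | nil => simp at hlW
          | cons z W =>
            have hz : z.1 = true := hh
            have hn : nmk W = 2 * r := by
              simp only [nmk, hz, if_true] at hnW
              omega
            apply hV
            · rw [ltr_length]; simpa using hlW
            · rw [tot_ltr]; ring
            · rw [chc_ltr, List.tail_cons, lty_eq, hn]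
              simp
        · rw [if_neg hh]
      rw [this, sub_zero]
    · intro W' h1 h2
      apply hV
      · rw [ltr_length]; omega
      · rw [tot_ltr]; ring
      · rw [chc_ltr]; split <;> omega
    · intro W' h1 h2
      have hn : nmk W' = 2 * r := by omega
      apply hV
      · rw [ltr_length]; omega
      · rw [tot_ltr]; ring
      · rw [chc_ltr, lty_eq, hn]; simp
  -- the first letter absorbed by the last letter
  have hfirst : C ((false, c - y.2) :: v) =
      (if true = (W.headD (false, 0)).1 then 0
        else FC C ((true, (W.headD (false, 0)).2) :: W.tail)) := by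
    have htv : tot ((false, c - y.2) :: v) = 0 := by
      have h1 := tot_ltr W true a a
      rw [hω, tot_cons, tot_append] at h1
      rw [tot_cons]
      simp only [tot, List.map_cons, List.map_nil, List.sum_cons, List.sum_nil] at h1 ⊢
      linarith
    cases hWc : W with
    | nil => rw [hWc] at hlW; simp at hlW
    | cons z W1 =>
      obtain ⟨m1, g1⟩ := z
      have hc : c = g1 ∧ ∀ h0, v ++ [(false, h0 - y.2)] = ltr W1 (if m1 then !true else true) g1 h0 := by
        have h1 : ∀ h0, (true, c - 0) :: (v ++ [(false, h0 - y.2)]) =
            (true, g1 - 0) :: ltr W1 (if m1 then !true else true) g1 h0 := by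
          intro h0
          rw [← hω 0 h0, hWc]
          rfl
        have h2 := fun h0 => List.cons.inj (h1 h0)
        refine ⟨?_, fun h0 => (h2 h0).2⟩
        have := (Prod.ext_iff.mp (h2 0).1).2
        simpa using this
      obtain ⟨rfl, hc2⟩ := hc
      cases m1
      · rw [hN.rot _ _ hvl htv, hc2]
        simp [FC]
      · simp only [List.headD_cons, if_true]
        apply hV
        · simp [hvl]
        · exact htv
        · -- number of changes
          have hn : nmk W1 = 2 * r := by
            rw [hWc] at hnW
            simp only [nmk, if_true] at hnW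
            omega
          have h3 := hc2 (y.2 + (c - y.2))
          simp only [add_sub_cancel_left, if_true] at h3
          have h4 : chc ((false, c - y.2) :: v) = chc (v ++ [(false, c - y.2)]) := by
            unfold chc
            rw [List.map_cons, List.map_append]
            exact chcb_rot1 _ _
          rw [h4, h3, chc_ltr, lty_eq, hn]
          simp
  -- the last letter absorbed by the first letter
  have hlast : C ((true, c - y.2) :: v) = (if y.1 then 0 else FC C ((true, y.2) :: W2)) := by
    by_cases hy : y.1 = true
    · rw [if_pos hy]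
      have hn : nmk W2 = 2 * r := by
        rw [hWy, nmk_append] at hnW
        simp only [nmk, hy, if_true] at hnW
        omega
      have h1 := hv y.2
      rw [← h1]
      apply hV
      · rw [ltr_length]; omega
      · rw [tot_ltr]; ring
      · rw [chc_ltr, lty_eq, hn]; simp
    · rw [if_neg hy, ← hv y.2]
      rfl
  rw [hU]
  have hmv : mv (FC C) ((true, a) :: W) = (if true = (W.headD (false, 0)).1 then 0
        else FC C ((true, (W.headD (false, 0)).2) :: W.tail)) +
      mv (fun t => C (ltr t true a a)) W := by
    cases hWc : W with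
    | nil => rw [hWc] at hlW; simp at hlW
    | cons z W1 =>
      rw [mv]
      simp only [List.headD_cons, List.tail_cons, if_true]
      congr 1
  rw [hmv, ← hmrg, ← hfirst]
  have hwrap : (if I = [] then 0 else FC C ((true, I.getLastD 0) ::
      ((true, a) :: (V ++ [(true, b)]) ++ bw I.dropLast).tail)) = C ((true, c - y.2) :: v) := by
    rw [hlast]
    rcases List.eq_nil_or_concat I with rfl | ⟨I', z, rfl⟩
    · have : y = (true, b) := by
        have h1 : W2 ++ [y] = V ++ [(true, b)] := by rw [← hWy, hWdef]; rfl
        exact (List.cons.inj (List.append_inj' h1 rfl).2).1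
      rw [this]
      simp
    · have h1 : W2 ++ [y] = (V ++ (true, b) :: bw I') ++ [(false, z)] := by
        rw [← hWy, hWdef]; simp [bw]
      have h2 := List.append_inj' h1 rfl
      have h3 : y = (false, z) := (List.cons.inj h2.2).1
      rw [h3, h2.1]
      simp
  rw [hwrap]
  linarith

/-- **A necklace function vanishes** if open chains are rigid. -/
theorem Neck.vanish (hN : Neck m C)
    (hAL : ∀ k e : ℕ, 2 ≤ k → k + e + 1 ≤ m → S_AL k e) (w : Wd) (hl : w.length = m + 1)
    (ht : tot w = 0) : C w = 0 := by
  have main : ∀ r : ℕ, ∀ w : Wd, w.length = m + 1 → tot w = 0 → chc w ≤ 2 * (r + 1) → C w = 0 := by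
    intro r
    induction r with
    | zero =>
      intro w hl ht hc
      rcases hN.std w hl ht with h0 | ⟨W, hWl, hlty, hCW, hcW⟩
      · exact h0
      · have hn : nmk W = 1 := by
          rw [lty_eq] at hlty
          by_cases hn0 : nmk W % 2 = 0
          · rw [if_pos hn0] at hlty; simp at hlty
          · omega
        obtain ⟨u, v, huv⟩ := ltr_one_mark W hn 0 0
        rw [hCW, huv]
        exact hN.two u v
    | succ r ih =>
      intro w hl ht hc
      rcases hN.std w hl ht with h0 | ⟨W, hWl, hlty, hCW, hcW⟩
      · exact h0
      · by_cases hc' : chc w ≤ 2 * (r + 1)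
        · exact ih w hl ht hc'
        · have hn : nmk W = 2 * (r + 1) + 1 := by
            rw [lty_eq] at hlty
            by_cases hn0 : nmk W % 2 = 0
            · rw [if_pos hn0] at hlty; simp at hlty
            · omega
          have hle := nmk_le W
          obtain ⟨V, b, I, hW⟩ := last_mark W (by omega)
          have hnV : nmk V = 2 * (r + 1) := by
            rw [hW, nmk_append] at hn
            simp only [nmk, nmk_bw, if_true] at hn
            omega
          have hlV : V.length + 1 + I.length = m := by
            rw [hW] at hWl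
            simp [bw] at hWl
            omega
          have hleV := nmk_le V
          have hcyc := hN.cycEq (r + 1) (m - 1 - 2 * (r + 1)) (by omega) ih
          have h1 := cyc_of_AL (k := 2 * (r + 1)) (e := m - 1 - 2 * (r + 1))
            (fun e' he' => hAL _ e' (by omega) (by omega)) (FC C) (polyW_FC hN.pol) hcyc
            (V.length - 2 * (r + 1)) I ((true, 0) :: (V ++ [(true, b)])) (by omega)
            ⟨0, b, V, rfl, hnV, by omega⟩
          have hU : (true, (0 : ℚ)) :: (V ++ [(true, b)]) ++ bw I = (true, 0) :: W := by
            rw [hW]; simp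
          rw [hU, zr_cons] at h1
          simp only [FC] at h1
          rw [hCW, h1]
          exact hN.zero _ (ltr_zero W true)
  exact main (chc w) w hl ht (by omega)

end

/-- **The data `PR m P R` vanish** if open chains are rigid. -/
theorem PR_vanish {m : ℕ} {P R : Wd → ℚ} (h : PR m P R)
    (hAL : ∀ k e : ℕ, 2 ≤ k → k + e + 1 ≤ m → S_AL k e) (w : Wd) : P w = 0 ∧ R w = 0 := by
  by_cases hw : w.length = m
  · have h1 := (neck_of_PR h).vanish hAL ((false, - tot w) :: w) (by simp [hw])
      (by rw [tot_cons]; simp)
    have h2 := (neck_of_PR h).vanish hAL ((true, - tot w) :: w) (by simp [hw])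
      (by rw [tot_cons]; simp)
    simp only [CC, if_true, Bool.false_eq_true, if_false] at h1 h2
    exact ⟨by linarith, h2⟩
  · exact ⟨h.suppP w hw, h.suppR w hw⟩

end Pent
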