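import Pool.Agent.Lib.MP_a57f33_nt.PN.N.Dep
import Pool.Agent.Lib.MP_a57f33_nt.PN.N.Van

/-!
# Pentagon project (MP_a57f33_nt): rigidity of open chains implies the pentagon equation
-/

set_option autoImplicit false

namespace Pent

open Pool.Agent.MP_a57f33_nt

universe v

noncomputable section

/-- Rigidity of open chains with four marks gives the vanishing of the data `PR`. -/
theorem PRb_of_AL (n0 : ℕ) (h : ∀ e : ℕ, e + 2 ≤ n0 → S_AL 2 e) : S_PRb n0 := by
  intro m hm P R hPR w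
  refine PR_vanish hPR (fun k e hk hke => ?_) w
  exact AL_mono (k₀ := 2) (e := e) (fun e' he' => h e' (by omega)) k hk e le_rfl

/-- The filtration of the five elements from the vanishing of the data `PR`. -/
theorem T_fil_of_PRb (n0 : ℕ) (hB : S_PRb n0) (ψ : QX) (hψ : ψ ∈ dm0) :
    ∀ f ∈ ({Rw (sgn ψ) wR, Rw (sgn ψ) wQ, Rw (sgn ψ) wP, Rw (sgn ψ) wN, Rw (sgn ψ) wS} : Set T3),
      Fil (n0 + 2) f := by
  have hφ : Good (sgn ψ) := sgn_good hψ
  have hcl : ClassZero (Rw (sgn ψ) wR) := s_F1 ψ hψ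
  have h1 := fun w => p_lieR (sgn ψ) hφ w
  have h3 : Abc (Rw (sgn ψ) wR) (Rw (sgn ψ) wQ) (Rw (sgn ψ) wP) :=
    s_abc (sgn ψ) hφ (p_few p_clie p_mov _ (h1 wR).1 hcl)
  obtain ⟨V, hV⟩ := p_SP p_clie p_mov _ _ _ (h1 wR).1 (h1 wQ).1 (h1 wP).1
    (fun u hu => ⟨s_forg _ hφ wR wR_inj 2 u hu, s_forg _ hφ wQ wQ_inj 2 u hu,
      s_forg _ hφ wP wP_inj 2 u hu⟩) h3
  have hEq := p_tra p_univ.{0} p_tau (sgn ψ) V hφ hV
  exact p_depPR n0 hB p_mlie p_mwrd p_mder (p_minj p_clie p_mov) p_mV p_van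
    _ _ _ _ _ V (by
      intro f hf
      simp only [Set.mem_insert_iff, Set.mem_singleton_iff] at hf
      rcases hf with rfl | rfl | rfl | rfl | rfl
      · exact ⟨(h1 wR).1, (h1 wR).2, s_forg _ hφ wR wR_inj⟩
      · exact ⟨(h1 wQ).1, (h1 wQ).2, s_forg _ hφ wQ wQ_inj⟩
      · exact ⟨(h1 wP).1, (h1 wP).2, s_forg _ hφ wP wP_inj⟩
      · exact ⟨(h1 wN).1, (h1 wN).2, s_forg _ hφ wN wN_inj⟩
      · exact ⟨(h1 wS).1, (h1 wS).2, s_forg _ hφ wS wS_inj⟩) hcl hEq

/-- **The vanishing of the data `PR` for at most `n0 + 1` letters implies the pentagon equation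
modulo depth `n0 + 2`.** -/
theorem trunc_of_PRb (n0 : ℕ) (hB : S_PRb n0) : S_trunc.{v} (n0 + 2) := by
  intro ψ hψ A _ _ t ht j hj
  have hφ : Good (sgn ψ) := sgn_good hψ
  have hall := T_fil_of_PRb n0 hB ψ hψ
  have hj' : j = 3 ∨ j = 2 ∨ j = 1 := by omega
  rcases hj' with rfl | rfl | rfl
  · exact T_of_fil hφ wR wR_inj eS eS_inj eS_wR rfl _ (hall _ (by simp)) t ht
  · exact T_of_fil hφ wQ wQ_inj eQ eQ_inj (by intro i; fin_cases i <;> rfl) rfl _
      (hall _ (by simp)) t ht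
  · exact T_of_fil hφ wP wP_inj eP eP_inj (by intro i; fin_cases i <;> rfl) rfl _
      (hall _ (by simp)) t ht

/-- **The vanishing of the data `PR` implies the pentagon equation.** -/
theorem pentagon_of_PR (hB : ∀ n0, S_PRb n0) : S_main.{v} := by
  intro ψ hψ A _ _ t ht
  have hφ : Good (sgn ψ) := sgn_good hψ
  have hR0 : Rw (sgn ψ) wR = 0 := by
    refine ext_coeff fun u => ?_
    rw [coeff_zero]
    exact T_fil_of_PRb (nbc u) (hB _) ψ hψ _ (by simp) u (by omega)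
  have h5 := p_univ.{v} (sgn ψ) hφ wR wR_inj A (fun p q => t (eS p) (eS q)) (braid_eS ht)
  simp only [eS_wR] at h5
  rw [h5, hR0, map_zero]

/-- **Rigidity of open chains with four marks and at most `n0 - 2` unmarked positions implies the
pentagon equation modulo depth `n0 + 2`.** -/
theorem trunc_of_AL (n0 : ℕ) (h : ∀ e : ℕ, e + 2 ≤ n0 → S_AL 2 e) : S_trunc.{v} (n0 + 2) :=
  trunc_of_PRb n0 (PRb_of_AL n0 h)

/-- **Rigidity of open chains with four marks implies the pentagon equation for all elements of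
`dm₀`.** -/
theorem pentagon_of_AL (h : ∀ e : ℕ, S_AL 2 e) : S_main.{v} :=
  pentagon_of_PR fun n0 => PRb_of_AL n0 fun e _ => h e

end

end Pent
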