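import Pool.Agent.Lib.MP_a57f33_nt.PN.N.Defs

/-!
# Pentagon project (MP_a57f33_nt): chains with marks, basic facts
-/

set_option autoImplicit false

namespace Pent

/-- the list of the moves: sign and result -/
def mvl : Wd → List (ℚ × Wd)
  | [] => []
  | [_] => []
  | x :: y :: W =>
      (if x.1 = y.1 then [] else
        [(if x.1 then 1 else -1, (true, if x.1 then y.2 else x.2) :: W)])
      ++ (mvl (y :: W)).map fun p => (p.1, x :: p.2)

theorem mv_eq (W : Wd) : ∀ F : Wd → ℚ, mv F W = ((mvl W).map fun p => p.1 * F p.2).sum := by
  induction W with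
  | nil => intro F; simp [mv, mvl]
  | cons x W ih =>
    intro F
    cases W with
    | nil => simp [mv, mvl]
    | cons y W =>
      rw [mv, mvl, List.map_append, List.sum_append, List.map_map, ih]
      congr 1
      by_cases h : x.1 = y.1
      · rw [if_pos h, if_pos h]; simp
      · rw [if_neg h, if_neg h]
        cases hx : x.1 <;> simp

theorem mv_sub (F G : Wd → ℚ) (W : Wd) : mv (fun t => F t - G t) W = mv F W - mv G W := by
  rw [mv_eq, mv_eq, mv_eq]
  induction mvl W with
  | nil => simp
  | cons p l ih => simp only [List.map_cons, List.sum_cons, ih]; ring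

theorem mv_congr {F G : Wd → ℚ} {W : Wd} (h : ∀ p ∈ mvl W, F p.2 = G p.2) :
    mv F W = mv G W := by
  rw [mv_eq, mv_eq]
  congr 1
  apply List.map_congr_left
  intro p hp
  rw [h p hp]

/-! ### invariants of the moves -/

theorem nmk_append (A B : Wd) : nmk (A ++ B) = nmk A + nmk B := by
  induction A with
  | nil => simp [nmk]
  | cons y A ih => simp only [List.cons_append, nmk, ih]; omega

theorem nmk_le (A : Wd) : nmk A ≤ A.length := by
  induction A with
  | nil => simp [nmk]
  | cons y A ih =>
    simp only [nmk, List.length_cons]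
    split <;> omega

theorem alt_append (A B : Wd) : alt (A ++ B) = alt A + (-1) ^ nmk A * alt B := by
  induction A with
  | nil => simp [alt, nmk]
  | cons y A ih =>
    simp only [List.cons_append, alt, nmk, ih]
    cases y.1
    · simp
    · simp only [if_true, pow_add, pow_one]; ring

theorem zr_length (W : Wd) : (zr W).length = W.length := by simp [zr]

theorem zr_append (A B : Wd) : zr (A ++ B) = zr A ++ zr B := by simp [zr]

theorem zr_cons (y : Bool × ℚ) (B : Wd) : zr (y :: B) = (y.1, 0) :: zr B := by simp [zr]

theorem zr_zr (W : Wd) : zr (zr W) = zr W := by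
  simp [zr, List.map_map, Function.comp]

theorem zr_map_fst (W : Wd) : (zr W).map (fun y => y.1) = W.map fun y => y.1 := by
  simp [zr, List.map_map, Function.comp]

theorem zr_bw (I : List ℚ) : zr (bw I) = bw (List.replicate I.length 0) := by
  induction I with
  | nil => rfl
  | cons a I ih =>
    unfold bw at ih ⊢
    rw [List.map_cons, zr_cons, ih, List.length_cons, List.replicate_succ, List.map_cons]

theorem alt_zr (W : Wd) : alt (zr W) = 0 := by
  induction W with
  | nil => rfl
  | cons y W ih =>
    rw [zr_cons]
    simp only [alt]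
    rw [ih]
    simp

theorem nmk_zr (W : Wd) : nmk (zr W) = nmk W := by
  induction W with
  | nil => rfl
  | cons y W ih =>
    rw [zr_cons]
    simp only [nmk]
    rw [ih]

theorem nmk_bw (I : List ℚ) : nmk (bw I) = 0 := by
  induction I with
  | nil => rfl
  | cons a I ih =>
    unfold bw at ih ⊢
    rw [List.map_cons]
    simp only [nmk, ih]
    simp

theorem alt_bw (I : List ℚ) : alt (bw I) = 0 := by
  induction I with
  | nil => rfl
  | cons a I ih =>
    unfold bw at ih ⊢
    rw [List.map_cons]
    simp only [alt, ih]
    simp

theorem mvl_inv (W : Wd) : ∀ p ∈ mvl W,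
    nmk p.2 = nmk W ∧ p.2.length + 1 = W.length ∧
      ((W.headD (false, 0)).1 = true → (p.2.headD (false, 0)).1 = true) ∧
      ((W.getLastD (false, 0)).1 = true → (p.2.getLastD (false, 0)).1 = true) := by
  induction W with
  | nil => intro p hp; simp [mvl] at hp
  | cons x W ih =>
    cases W with
    | nil => intro p hp; simp [mvl] at hp
    | cons y W =>
      intro p hp
      rw [mvl, List.mem_append] at hp
      rcases hp with hp | hp
      · by_cases h : x.1 = y.1
        · rw [if_pos h] at hp; simp at hp
        · rw [if_neg h, List.mem_singleton] at hp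
          subst hp
          refine ⟨?_, ?_, ?_, ?_⟩
          · simp only [nmk, if_true]
            cases hx : x.1 <;> cases hy : y.1 <;> rw [hx, hy] at h <;> simp at h ⊢
          · simp
          · intro _; simp
          · intro hl
            cases W with
            | nil => simp
            | cons z W => simpa using hl
      · rw [List.mem_map] at hp
        obtain ⟨q, hq, rfl⟩ := hp
        obtain ⟨h1, h2, h3, h4⟩ := ih q hq
        refine ⟨?_, ?_, ?_, ?_⟩
        · simp only [nmk] at h1 ⊢
          rw [h1]
        · simp only [List.length_cons] at h2 ⊢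
          omega
        · intro hx; simpa using hx
        · intro hl
          cases hq2 : q.2 with
          | nil =>
            rw [hq2] at h2
            have h6 : W = [] := by simpa using h2
            subst h6
            simp [mvl] at hq
          | cons z W' =>
            have h5 := h4 (by simpa using hl)
            rw [hq2] at h5
            simpa using h5

theorem mvl_zr (W : Wd) : mvl (zr W) = (mvl W).map fun p => (p.1, zr p.2) := by
  induction W with
  | nil => rfl
  | cons x W ih =>
    cases W with
    | nil => rfl
    | cons y W =>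
      rw [zr_cons, zr_cons, mvl, mvl, ← zr_cons, ih, List.map_append, List.map_map, List.map_map]
      congr 1
      · by_cases h : x.1 = y.1
        · rw [if_pos h, if_pos h]; rfl
        · rw [if_neg h, if_neg h]
          simp [zr_cons]

theorem mv_zr (F : Wd → ℚ) (W : Wd) : mv (fun t => F (zr t)) W = mv F (zr W) := by
  rw [mv_eq, mv_eq, mvl_zr, List.map_map]
  rfl

theorem opn_iff (k e : ℕ) (W : Wd) : Opn k e W ↔
    nmk W = k + 2 ∧ W.length = k + 2 + e ∧ (W.headD (false, 0)).1 = true ∧
      (W.getLastD (false, 0)).1 = true := by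
  constructor
  · rintro ⟨a, b, V, rfl, h1, h2⟩
    refine ⟨?_, ?_, ?_, ?_⟩
    · simp only [nmk, nmk_append, h1]; simp; omega
    · simp only [List.length_cons, List.length_append, h2, List.length_nil]; omega
    · simp
    · simp [List.getLastD_eq_getLast?, List.getLast?_cons, List.getLast?_append]
  · rintro ⟨h1, h2, h3, h4⟩
    cases W with
    | nil => simp [nmk] at h1
    | cons x W =>
      rcases List.eq_nil_or_concat W with rfl | ⟨V, z, rfl⟩
      · simp only [nmk] at h1
        split at h1 <;> omega
      · obtain ⟨x1, a⟩ := x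
        obtain ⟨z1, b⟩ := z
        have e1 : x1 = true := by simpa using h3
        have e2 : z1 = true := by
          simpa [List.getLastD_eq_getLast?, List.getLast?_cons, List.getLast?_append] using h4
        subst e1; subst e2
        refine ⟨a, b, V, by simp, ?_, ?_⟩
        · simp only [nmk, List.concat_eq_append, nmk_append] at h1
          simp at h1; omega
        · simp at h2; omega

theorem opn_mvl {k e : ℕ} {W : Wd} (h : Opn k e W) {p : ℚ × Wd} (hp : p ∈ mvl W) :
    ∃ e', e = e' + 1 ∧ Opn k e' p.2 := by
  rw [opn_iff] at h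
  obtain ⟨h1, h2, h3, h4⟩ := h
  obtain ⟨g1, g2, g3, g4⟩ := mvl_inv W p hp
  have hle := nmk_le p.2
  refine ⟨e - 1, by omega, ?_⟩
  rw [opn_iff]
  exact ⟨by omega, by omega, g3 h3, g4 h4⟩

theorem opn_zr {k e : ℕ} {W : Wd} (h : Opn k e W) : Opn k e (zr W) := by
  obtain ⟨a, b, V, rfl, h1, h2⟩ := h
  refine ⟨0, 0, zr V, ?_, ?_, ?_⟩
  · rw [zr_cons, zr_append, zr_cons]; rfl
  · rw [nmk_zr, h1]
  · rw [zr_length, h2]

theorem mvl_opn_zero {k : ℕ} {W : Wd} (h : Opn k 0 W) : mvl W = [] := by
  rw [List.eq_nil_iff_forall_not_mem]
  intro p hp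
  obtain ⟨e', he, -⟩ := opn_mvl h hp
  omega

/-! ### moves and concatenation -/

theorem mv_append (A : Wd) : ∀ (F : Wd → ℚ) (x : Bool × ℚ) (B : Wd),
    mv F (A ++ x :: B) = mv (fun t => F (t ++ B)) (A ++ [x]) + mv (fun t => F (A ++ t)) (x :: B) := by
  induction A with
  | nil => intro F x B; simp [mv]
  | cons a A ih =>
    intro F x B
    cases A with
    | nil =>
      simp only [List.cons_append, List.nil_append, mv]
      ring
    | cons b A =>
      simp only [List.cons_append, mv]
      have := ih (fun t => F (a :: t)) x B
      simp only [List.cons_append] at this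
      rw [this]
      simp only [List.append_assoc, List.cons_append, List.nil_append]
      ring

theorem mv_bw (I : List ℚ) : ∀ F : Wd → ℚ, mv F (bw I) = 0 := by
  induction I with
  | nil => intro F; simp [bw, mv]
  | cons a I ih =>
    intro F
    cases I with
    | nil => simp [bw, mv]
    | cons b I =>
      unfold bw at ih ⊢
      rw [List.map_cons, List.map_cons, mv, ← List.map_cons, ih]
      simp

theorem mv_mark_bw (F : Wd → ℚ) (b : ℚ) (I : List ℚ) :
    mv F ((true, b) :: bw I) = if I = [] then 0 else F ((true, I.headD 0) :: bw I.tail) := by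
  cases I with
  | nil => simp [bw, mv]
  | cons g I =>
    rw [if_neg (by simp)]
    have : bw (g :: I) = (false, g) :: bw I := rfl
    rw [this, mv, ← this, mv_bw]
    simp

theorem mv_bw_mark (I : List ℚ) : ∀ (F : Wd → ℚ) (z : ℚ),
    mv F (bw I ++ [(true, z)]) =
      if I = [] then 0 else - F (bw I.dropLast ++ [(true, I.getLastD 0)]) := by
  induction I with
  | nil => intro F z; simp [bw, mv]
  | cons g I ih =>
    intro F z
    rw [if_neg (by simp)]
    cases I with
    | nil => simp [bw, mv]
    | cons g' I =>
      have e1 : bw (g :: g' :: I) ++ [(true, z)] = (false, g) :: (false, g') :: (bw I ++ [(true, z)]) := rfl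
      have e2 : (false, g') :: (bw I ++ [(true, z)]) = bw (g' :: I) ++ [(true, z)] := rfl
      rw [e1, mv, e2, ih]
      simp [bw]

theorem mv_mark_bw_mark (F : Wd → ℚ) (b z : ℚ) (I : List ℚ) :
    mv F ((true, b) :: (bw I ++ [(true, z)])) =
      if I = [] then 0 else F ((true, I.headD 0) :: (bw I.tail ++ [(true, z)]))
        - F ((true, b) :: (bw I.dropLast ++ [(true, I.getLastD 0)])) := by
  cases I with
  | nil => simp [bw, mv]
  | cons g I =>
    have h1 := mv_bw_mark (g :: I) (fun t => F ((true, b) :: t)) z
    have e1 : bw (g :: I) ++ [(true, z)] = (false, g) :: (bw I ++ [(true, z)]) := rfl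
    rw [e1] at h1 ⊢
    rw [mv, h1]
    simp [bw]
    ring

end Pent
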