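import Pool.Agent.Lib.MP_a57f33_nt.PN.N.Poly

/-!
# Pentagon project (MP_a57f33_nt): necklaces

From the data `PR m P R` to one rotation invariant function `C` of words with total momentum `0`.
-/

set_option autoImplicit false

namespace Pent

/-- The necklace function: `R` after a letter `c`, `-P` after a letter `b`. -/
def CC (P R : Wd → ℚ) : Wd → ℚ
  | [] => 0
  | y :: v => if y.1 then R v else - P v

/-- The properties of the necklace function. -/
structure Neck (m : ℕ) (C : Wd → ℚ) : Prop where
  pol : PolyW C
  rot : ∀ (y : Bool × ℚ) (v : Wd), v.length = m → tot (y :: v) = 0 → C (y :: v) = C (v ++ [y])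
  two : ∀ u v : List ℚ, C (cw u ++ bw v) = 0
  zero : ∀ w : Wd, (∀ y ∈ w, y.2 = 0) → C w = 0
  eq : ∀ (μ ν : ℚ) (v : Wd), v.length = m → tot ((true, μ) :: (v ++ [(false, ν)])) = 0 →
    csum ((true, μ) :: (v ++ [(false, ν)])) = 0 →
    mrg C ((true, μ) :: (v ++ [(false, ν)])) + C ((false, ν + μ) :: v) - C ((true, ν + μ) :: v) = 0

theorem tot_append (A B : Wd) : tot (A ++ B) = tot A + tot B := by
  simp [tot]

theorem tot_cons (y : Bool × ℚ) (B : Wd) : tot (y :: B) = y.2 + tot B := by
  simp [tot]

theorem mrg_append (A : Wd) : ∀ (F : Wd → ℚ) (x : Bool × ℚ) (B : Wd),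
    mrg F (A ++ x :: B) = mrg (fun t => F (t ++ B)) (A ++ [x]) +
      mrg (fun t => F (A ++ t)) (x :: B) := by
  induction A with
  | nil => intro F x B; simp [mrg]
  | cons a A ih =>
    intro F x B
    obtain ⟨a1, a2⟩ := a
    cases A with
    | nil =>
      obtain ⟨x1, x2⟩ := x
      simp only [List.cons_append, List.nil_append, mrg]
      ring
    | cons b A =>
      obtain ⟨b1, b2⟩ := b
      simp only [List.cons_append, mrg]
      have := ih (fun t => F ((a1, a2) :: t)) x B
      simp only [List.cons_append] at this
      rw [this]
      simp only [List.append_assoc, List.cons_append, List.nil_append]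
      ring

theorem mrg_congr (w : Wd) : ∀ (F G : Wd → ℚ),
    (∀ t : Wd, t.length + 1 = w.length → tot t = tot w → F t = G t) → mrg F w = mrg G w := by
  induction w with
  | nil => intro F G _; simp [mrg]
  | cons x w ih =>
    intro F G h
    obtain ⟨x1, x2⟩ := x
    cases w with
    | nil => simp [mrg]
    | cons y w =>
      obtain ⟨y1, y2⟩ := y
      rw [mrg, mrg]
      have h1 := ih (fun t => F ((x1, x2) :: t)) (fun t => G ((x1, x2) :: t))
        (fun t ht htt => h _ (by simp only [List.length_cons] at ht ⊢; omega)
          (by rw [tot_cons, htt, ← tot_cons]))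
      have h2 : ∀ z : Bool, F ((z, x2 + y2) :: w) = G ((z, x2 + y2) :: w) := fun z =>
        h _ (by simp) (by simp only [tot_cons]; ring)
      rw [h1, h2 true, h2 false]

theorem mrg_neg (w : Wd) : ∀ (F : Wd → ℚ), mrg (fun t => - F t) w = - mrg F w := by
  induction w with
  | nil => intro F; simp [mrg]
  | cons x w ih =>
    intro F
    obtain ⟨x1, x2⟩ := x
    cases w with
    | nil => simp [mrg]
    | cons y w =>
      obtain ⟨y1, y2⟩ := y
      rw [mrg, mrg, ih]
      cases x1 <;> cases y1 <;> simp <;> ring

theorem lstL_concat (x : Bool) (f : Wd → ℚ) (v : Wd) (y : Bool × ℚ) :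
    lstL x f (v ++ [y]) = if y.1 = x then f v else 0 := by
  simp [lstL, fstL]

/-- The data `PR m P R` give a necklace function. -/
theorem neck_of_PR {m : ℕ} {P R : Wd → ℚ} (h : PR m P R) : Neck m (CC P R) := by
  have hrot : ∀ (y : Bool × ℚ) (v : Wd), v.length = m → tot (y :: v) = 0 →
      CC P R (y :: v) = CC P R (v ++ [y]) := by
    intro y v hv ht
    have h2 := h.K2 (v ++ [y]) (by simp [hv]) (by rw [tot_append]; simpa [tot, add_comm] using ht)
    cases hvy : v ++ [y] with
    | nil => simp at hvy
    | cons z w =>
      have e1 : CC P R (z :: w) = fstL true R (z :: w) - fstL false P (z :: w) := by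
        simp only [CC, fstL]
        cases z.1 <;> simp
      have e2 : CC P R (y :: v) = lstL true R (v ++ [y]) - lstL false P (v ++ [y]) := by
        rw [lstL_concat, lstL_concat]
        simp only [CC]
        cases y.1 <;> simp
      rw [e1, e2, ← hvy]
      unfold brk at h2
      linarith
  refine ⟨?_, hrot, ?_, ?_, ?_⟩
  · intro p
    cases p with
    | nil => exact ⟨0, fun l _ => by simp [CC]⟩
    | cons x q =>
      have hx : PolyL q.length (fun μ => if x then R (q.zip μ) else - P (q.zip μ)) := by
        cases x
        · obtain ⟨Φ, hΦ⟩ := h.polP q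
          refine ⟨-Φ, fun l hl => ?_⟩
          have h1 := hΦ l hl
          simp only at h1
          rw [map_neg, ← h1]
          simp
        · obtain ⟨Φ, hΦ⟩ := h.polR q
          refine ⟨Φ, fun l hl => ?_⟩
          have h1 := hΦ l hl
          simp only at h1
          rw [← h1]
          simp
      have := hx.subst (n := q.length + 1) (fun i => MvPolynomial.X (i + 1)) (fun l => l.tail)
        (fun l hl => ⟨by simp [hl], fun i _ => by
          rw [MvPolynomial.eval_X]
          cases l with
          | nil => simp at hl
          | cons a l => simp⟩)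
      obtain ⟨Φ, hΦ⟩ := this
      refine ⟨Φ, fun l hl => ?_⟩
      rw [← hΦ l (by simpa using hl)]
      cases l with
      | nil => simp at hl
      | cons a l => simp [CC]
  · intro u v
    cases u with
    | nil =>
      cases v with
      | nil => simp [CC, cw, bw]
      | cons ν v =>
        have e : cw ([] : List ℚ) ++ bw (ν :: v) = (false, ν) :: bw v := rfl
        rw [e]
        simp only [CC]
        rw [h.pureP false (bw v) (by
          intro y hy
          simp only [bw, List.mem_map] at hy
          obtain ⟨a, -, rfl⟩ := hy
          rfl)]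
        simp
    | cons μ u =>
      have e : cw (μ :: u) ++ bw v = (true, μ) :: (cw u ++ bw v) := rfl
      rw [e]
      simp only [CC, if_true]
      exact h.cbR u v
  · intro w hw
    cases w with
    | nil => rfl
    | cons y w =>
      simp only [CC]
      rw [h.zeroR w fun z hz => hw z (List.mem_cons_of_mem _ hz),
        h.zeroP w fun z hz => hw z (List.mem_cons_of_mem _ hz)]
      simp
  · intro μ ν v hv ht hc
    -- the last letter of `(true, μ) :: v`
    obtain ⟨u, x, hux⟩ : ∃ (u : Wd) (x : Bool × ℚ), (true, μ) :: v = u ++ [x] := by
      rcases List.eq_nil_or_concat ((true, μ) :: v) with h0 | ⟨u, x, hux⟩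
      · simp at h0
      · exact ⟨u, x, by rw [hux]; simp⟩
    have hul : u.length = m := by
      have := congrArg List.length hux
      simp at this
      omega
    have ht1 : tot ((true, μ) :: v) = -ν := by
      have e : (true, μ) :: (v ++ [(false, ν)]) = ((true, μ) :: v) ++ [(false, ν)] := rfl
      rw [e, tot_append] at ht
      simp only [tot, List.map_cons, List.map_nil, List.sum_cons, List.sum_nil, add_zero] at ht ⊢
      linarith
    have h4 := h.K4 ((true, μ) :: v) (by simp [hv]) (by
      have e : (true, μ) :: (v ++ [(false, ν)]) = ((true, μ) :: v) ++ [(false, ν)] := rfl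
      rw [e] at hc
      simpa [csum] using hc)
    have e1 : mrg (CC P R) ((true, μ) :: (v ++ [(false, ν)])) =
        - mrg P ((true, μ) :: v) + lstL true (fun t => P t + R t) ((true, μ) :: v) := by
      have e : (true, μ) :: (v ++ [(false, ν)]) = u ++ x :: [(false, ν)] := by
        have : (true, μ) :: (v ++ [(false, ν)]) = ((true, μ) :: v) ++ [(false, ν)] := rfl
        rw [this, hux]
        simp
      rw [e, mrg_append, ← hux]
      congr 1
      · rw [← mrg_neg]
        apply mrg_congr
        intro t htl htt
        have htm : t.length = m := by simp at htl; omega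
        rw [← hrot (false, ν) t htm (by rw [tot_cons, htt, ht1]; simp)]
        simp [CC]
      · rw [hux, lstL_concat]
        obtain ⟨x1, x2⟩ := x
        have hu0 : tot u + (x2 + ν) = 0 := by
          rw [hux, tot_append] at ht1
          simp only [tot, List.map_cons, List.map_nil, List.sum_cons, List.sum_nil, add_zero]
            at ht1 ⊢
          linarith
        cases x1
        · simp [mrg]
        · simp only [mrg, if_true, add_zero]
          rw [← hrot (true, x2 + ν) u hul (by rw [tot_cons]; linarith),
            ← hrot (false, x2 + ν) u hul (by rw [tot_cons]; linarith)]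
          simp [CC]
          ring
    rw [e1]
    unfold brk at h4
    have e2 : fstL true (fun t => P t + R t) ((true, μ) :: v) = P v + R v := by simp [fstL]
    rw [e2] at h4
    simp only [CC, if_true, Bool.false_eq_true, if_false]
    linarith

end Pent
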