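import Pool.Agent.Lib.MP_a57f33_nt.PN.N.Mv

/-!
# Pentagon project (MP_a57f33_nt): polynomial functions, leading coefficients
-/

set_option autoImplicit false

namespace Pent

open MvPolynomial

/-- substitution into a polynomial function of lists -/
theorem PolyL.subst {m n : ℕ} {f : List ℚ → ℚ} (hf : PolyL m f) (σ : ℕ → MvPolynomial ℕ ℚ)
    (g : List ℚ → List ℚ)
    (hg : ∀ l : List ℚ, l.length = n → (g l).length = m ∧
      ∀ i < m, (g l).getD i 0 = eval (fun j => l.getD j 0) (σ i)) :
    PolyL n (fun l => f (g l)) := by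
  obtain ⟨F, hF⟩ := hf
  refine ⟨bind₁ (fun i => if i < m then σ i else 0) F, ?_⟩
  intro l hl
  obtain ⟨h1, h2⟩ := hg l hl
  change f (g l) = _
  have e : ∀ (v : ℕ → ℚ) (σ' : ℕ → MvPolynomial ℕ ℚ), eval v (bind₁ σ' F)
      = eval (fun i => eval v (σ' i)) F := by
    intro v σ'
    have := aeval_bind₁ (R := ℚ) (S := ℚ) v σ' F
    simpa [aeval_eq_eval] using this
  rw [hF _ h1, e]
  congr 2
  funext i
  by_cases hi : i < m
  · rw [if_pos hi, h2 i hi]
  · rw [if_neg hi, List.getD_eq_default _ _ (by omega), map_zero]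

/-- a letter in front and letters behind do not harm polynomiality -/
theorem PolyW.append {F : Wd → ℚ} (hF : PolyW F) (A B : Wd) :
    PolyW (fun t => F (A ++ (t ++ B))) := by
  intro p
  have h := hF (A.map (fun y => y.1) ++ (p ++ B.map fun y => y.1))
  have h2 := h.subst (n := p.length)
    (fun i => if i < A.length then C ((A.map fun y => y.2).getD i 0)
      else if i < A.length + p.length then X (i - A.length)
      else C ((B.map fun y => y.2).getD (i - A.length - p.length) 0))
    (fun l => A.map (fun y => y.2) ++ (l ++ B.map fun y => y.2)) ?_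
  · obtain ⟨Φ, hΦ⟩ := h2
    refine ⟨Φ, fun l hl => ?_⟩
    rw [← hΦ l hl]
    change F (A ++ (p.zip l ++ B)) = F _
    congr 1
    rw [List.zip_append (by simp), List.zip_append (by simp [hl])]
    have e : ∀ C' : Wd, (C'.map fun y => y.1).zip (C'.map fun y => y.2) = C' := by
      intro C'
      induction C' with
      | nil => rfl
      | cons y C' ih => simp [ih]
    rw [e, e]
  · intro l hl
    refine ⟨by simp [hl], fun i hi => ?_⟩
    simp only [List.length_append, List.length_map] at hi
    by_cases h1 : i < A.length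
    · rw [if_pos h1, eval_C, List.getD_append _ _ _ _ (by simpa using h1)]
    · rw [if_neg h1, List.getD_append_right _ _ _ _ (by simpa using h1)]
      simp only [List.length_map]
      by_cases h3 : i < A.length + p.length
      · rw [if_pos h3, eval_X, List.getD_append _ _ _ _ (by omega)]
      · rw [if_neg h3, eval_C, List.getD_append_right _ _ _ _ (by omega), hl]

/-! ### leading coefficients -/

/-- `f` is a polynomial function of degree at most `N` with coefficient `a` in degree `N` -/
def Lead (N : ℕ) (f : ℚ → ℚ) (a : ℚ) : Prop :=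
  ∃ P : Polynomial ℚ, P.natDegree ≤ N ∧ P.coeff N = a ∧ ∀ x, f x = P.eval x

theorem Lead.add {N : ℕ} {f g : ℚ → ℚ} {a b : ℚ} (hf : Lead N f a) (hg : Lead N g b) :
    Lead N (fun x => f x + g x) (a + b) := by
  obtain ⟨P, h1, h2, h3⟩ := hf
  obtain ⟨Q, g1, g2, g3⟩ := hg
  refine ⟨P + Q, Polynomial.natDegree_add_le_of_degree_le h1 g1, ?_, ?_⟩
  · rw [Polynomial.coeff_add, h2, g2]
  · intro x; simp only [Polynomial.eval_add, h3, g3]

theorem Lead.mul {N M : ℕ} {f g : ℚ → ℚ} {a b : ℚ} (hf : Lead N f a) (hg : Lead M g b) :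
    Lead (N + M) (fun x => f x * g x) (a * b) := by
  obtain ⟨P, h1, h2, h3⟩ := hf
  obtain ⟨Q, g1, g2, g3⟩ := hg
  refine ⟨P * Q, (Polynomial.natDegree_mul_le).trans (by omega), ?_, ?_⟩
  · rw [Polynomial.coeff_mul_add_eq_of_natDegree_le h1 g1, h2, g2]
  · intro x; simp only [Polynomial.eval_mul, h3, g3]

theorem Lead.neg {N : ℕ} {f : ℚ → ℚ} {a : ℚ} (hf : Lead N f a) :
    Lead N (fun x => - f x) (- a) := by
  obtain ⟨P, h1, h2, h3⟩ := hf
  refine ⟨-P, by rwa [Polynomial.natDegree_neg], ?_, ?_⟩
  · rw [Polynomial.coeff_neg, h2]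
  · intro x; simp only [Polynomial.eval_neg, h3]

theorem Lead.const (c : ℚ) : Lead 0 (fun _ => c) c :=
  ⟨Polynomial.C c, by simp, by simp, by simp⟩

theorem Lead.zero (N : ℕ) : Lead N (fun _ => 0) 0 := ⟨0, by simp, by simp, by simp⟩

theorem Lead.up {N M : ℕ} {f : ℚ → ℚ} {a : ℚ} (hf : Lead N f a) (h : N < M) : Lead M f 0 := by
  obtain ⟨P, h1, h2, h3⟩ := hf
  exact ⟨P, by omega, Polynomial.coeff_eq_zero_of_natDegree_lt (by omega), h3⟩

theorem Lead.pow {N : ℕ} {f : ℚ → ℚ} {a : ℚ} (hf : Lead N f a) (k : ℕ) :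
    Lead (k * N) (fun x => f x ^ k) (a ^ k) := by
  induction k with
  | zero => simpa using Lead.const 1
  | succ k ih =>
    have := ih.mul hf
    simp only [← pow_succ] at this
    rwa [add_mul, one_mul]

theorem Lead.lin (a d : ℚ) : Lead 1 (fun x => a * x + d) a := by
  refine ⟨Polynomial.C a * Polynomial.X + Polynomial.C d, ?_, ?_, ?_⟩
  · exact Polynomial.natDegree_linear_le
  · simp
  · intro x; simp

theorem Lead.prod {ι : Type} (s : Finset ι) (n : ι → ℕ) (f : ι → ℚ → ℚ) (a : ι → ℚ)
    (h : ∀ i ∈ s, Lead (n i) (f i) (a i)) :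
    Lead (∑ i ∈ s, n i) (fun x => ∏ i ∈ s, f i x) (∏ i ∈ s, a i) := by
  classical
  induction s using Finset.induction_on with
  | empty => simpa using Lead.const 1
  | insert i s hi ih =>
    have h1 := (h i (Finset.mem_insert_self i s)).mul
      (ih fun j hj => h j (Finset.mem_insert_of_mem hj))
    simp only [Finset.sum_insert hi, Finset.prod_insert hi]
    exact h1

theorem Lead.sum {ι : Type} (s : Finset ι) (N : ℕ) (f : ι → ℚ → ℚ) (a : ι → ℚ)
    (h : ∀ i ∈ s, Lead N (f i) (a i)) :
    Lead N (fun x => ∑ i ∈ s, f i x) (∑ i ∈ s, a i) := by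
  classical
  induction s using Finset.induction_on with
  | empty => simpa using Lead.zero N
  | insert i s hi ih =>
    have h1 := (h i (Finset.mem_insert_self i s)).add
      (ih fun j hj => h j (Finset.mem_insert_of_mem hj))
    simp only [Finset.sum_insert hi]
    exact h1

theorem Lead.unique {N : ℕ} {f : ℚ → ℚ} {a b : ℚ} (hf : Lead N f a) (hg : Lead N f b) :
    a = b := by
  obtain ⟨P, h1, h2, h3⟩ := hf
  obtain ⟨Q, g1, g2, g3⟩ := hg
  have : P = Q := Polynomial.funext fun x => by rw [← h3, ← g3]
  rw [← h2, ← g2, this]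

/-- the leading coefficient of a polynomial along a line -/
theorem lead_poly (Φ : MvPolynomial ℕ ℚ) (N : ℕ) (hΦ : Φ.totalDegree ≤ N) (a d : ℕ → ℚ) :
    Lead N (fun x => eval (fun i => a i * x + d i) Φ) (eval a (homogeneousComponent N Φ)) := by
  have e1 : (fun x => eval (fun i => a i * x + d i) Φ) = fun x => ∑ m ∈ Φ.support,
      coeff m Φ * ∏ i ∈ m.support, (a i * x + d i) ^ m i := by
    funext x
    rw [eval_eq]
  have e2 : eval a (homogeneousComponent N Φ) = ∑ m ∈ Φ.support,
      if m.degree = N then coeff m Φ * ∏ i ∈ m.support, a i ^ m i else 0 := by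
    rw [homogeneousComponent_apply, map_sum, Finset.sum_filter]
    apply Finset.sum_congr rfl
    intro m _
    split
    · rw [eval_monomial]; rfl
    · rfl
  rw [e1, e2]
  apply Lead.sum
  intro m hm
  have hmN : m.degree ≤ N := by
    have := le_totalDegree hm
    have h2 : m.degree = m.sum fun _ e => e := by
      rw [Finsupp.degree_apply]; rfl
    omega
  have h1 : Lead m.degree (fun x => coeff m Φ * ∏ i ∈ m.support, (a i * x + d i) ^ m i)
      (coeff m Φ * ∏ i ∈ m.support, a i ^ m i) := by
    have h2 := Lead.prod m.support (fun i => m i) (fun i x => (a i * x + d i) ^ m i)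
      (fun i => a i ^ m i) (fun i _ => by simpa using (Lead.lin (a i) (d i)).pow (m i))
    have h3 := (Lead.const (coeff m Φ)).mul h2
    rw [zero_add] at h3
    rw [Finsupp.degree_apply]
    exact h3
  split
  · rename_i h; rw [← h]; exact h1
  · exact h1.up (by omega)

/-! ### affine families of words -/

/-- the word at time `x` -/
def inst (x : ℚ) (V : List (Bool × ℚ × ℚ)) : Wd := V.map fun v => (v.1, v.2.1 * x + v.2.2)

/-- the leading part -/
def ldp (V : List (Bool × ℚ × ℚ)) : Wd := V.map fun v => (v.1, v.2.1)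

theorem lead_mv (N : ℕ) : ∀ (V : List (Bool × ℚ × ℚ)) (F : ℚ → Wd → ℚ) (G : Wd → ℚ),
    (∀ V' : List (Bool × ℚ × ℚ), V'.length + 1 = V.length →
      Lead N (fun x => F x (inst x V')) (G (ldp V'))) →
    Lead N (fun x => mv (F x) (inst x V)) (mv G (ldp V)) := by
  intro V
  induction V with
  | nil => intro F G _; simpa [inst, ldp, mv] using Lead.zero N
  | cons v V ih =>
    intro F G h
    cases V with
    | nil => simpa [inst, ldp, mv] using Lead.zero N
    | cons w V =>
      have h2 := ih (fun x t => F x ((v.1, v.2.1 * x + v.2.2) :: t)) (fun t => G ((v.1, v.2.1) :: t))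
        (fun V' hV' => by
          have := h (v :: V') (by simp only [List.length_cons] at hV' ⊢; omega)
          simpa [inst, ldp] using this)
      have h1 : Lead N (fun x => if v.1 = w.1 then 0 else if v.1 then
          F x ((true, w.2.1 * x + w.2.2) :: inst x V) else - F x ((true, v.2.1 * x + v.2.2) :: inst x V))
          (if v.1 = w.1 then 0 else if v.1 then G ((true, w.2.1) :: ldp V)
            else - G ((true, v.2.1) :: ldp V)) := by
        by_cases hvw : v.1 = w.1
        · simp only [if_pos hvw]; exact Lead.zero N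
        · simp only [if_neg hvw]
          by_cases hv : v.1 = true
          · simp only [if_pos hv]
            exact h ((true, w.2) :: V) (by simp)
          · simp only [if_neg hv]
            exact (h ((true, v.2) :: V) (by simp)).neg
      exact h1.add h2

end Pent
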