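import Pool.Agent.Lib.MP_a57f33_nt.PN.N.Abs

/-!
# Pentagon project (MP_a57f33_nt): one more mark
-/

set_option autoImplicit false

namespace Pent

/-- the last mark of a list -/
theorem last_mark (V : Wd) (h : 1 ≤ nmk V) :
    ∃ (V' : Wd) (b : ℚ) (I : List ℚ), V = V' ++ (true, b) :: bw I := by
  induction V using List.reverseRecOn with
  | nil => simp [nmk] at h
  | append_singleton V y ih =>
    obtain ⟨y1, y2⟩ := y
    cases y1
    · have h' : 1 ≤ nmk V := by
        rw [nmk_append] at h
        simpa [nmk] using h
      obtain ⟨V', b, I, rfl⟩ := ih h'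
      exact ⟨V', b, I ++ [y2], by simp [bw]⟩
    · exact ⟨V, y2, [], by simp [bw]⟩

theorem getLastD_replicate (j : ℕ) : (List.replicate j (0 : ℚ)).getLastD 0 = 0 := by
  cases j with
  | zero => rfl
  | succ j =>
    rw [List.replicate_succ']
    simp

/-- **One more mark.** -/
theorem AL_step {k e : ℕ} (h : ∀ e', e' ≤ e → S_AL k e') : S_AL (k + 1) e := by
  intro F hF hE
  -- the function of the active chain and the inert list
  have main := abs_rigid (k := k) (n := e + 1) (l0 := 1) (fun e' he' => h e' (by omega))
    (fun L => - ((-1) ^ (k + 2) * L.getLastD 0))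
    (fun j => by rw [getLastD_replicate]; simp)
    (fun A L => F (A ++ (bw L.dropLast ++ [(true, L.getLastD 0)])))
    (fun L => by
      have := hF.append [] (bw L.dropLast ++ [(true, L.getLastD 0)])
      simpa using this)
    (fun u L A hu hl hA halt => by
      obtain ⟨I, z, rfl⟩ : ∃ I z, L = I ++ [z] := by
        rcases List.eq_nil_or_concat L with rfl | ⟨I, z, rfl⟩
        · simp at hl
        · exact ⟨I, z, by simp⟩
      have hnA := ((opn_iff k u A).mp hA).1
      obtain ⟨a, b, V, rfl, hV1, hV2⟩ := hA
      simp only [List.getLastD_concat, List.dropLast_concat, List.length_append,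
        List.length_singleton] at halt hu hl ⊢
      have hW := hE ((true, a) :: ((V ++ (true, b) :: bw I) ++ [(true, z)]))
        ⟨a, z, V ++ (true, b) :: bw I, rfl, by
          rw [nmk_append]; simp only [nmk, nmk_bw, if_true]; omega, by
          simp [bw, hV2]; omega⟩ (by
        have e1 : (true, a) :: ((V ++ (true, b) :: bw I) ++ [(true, z)]) =
            ((true, a) :: (V ++ [(true, b)])) ++ (bw I ++ [(true, z)]) := by simp
        rw [e1, alt_append, halt, hnA, alt_append, alt_bw, nmk_bw]
        simp [alt])
      have e2 : (true, a) :: ((V ++ (true, b) :: bw I) ++ [(true, z)]) =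
          ((true, a) :: V) ++ (true, b) :: (bw I ++ [(true, z)]) := by simp
      rw [e2, mv_append, mv_mark_bw_mark] at hW
      refine ⟨(true, a) :: (V ++ [(true, I.headD 0)]), (true, a) :: (V ++ [(true, b)]),
        ⟨a, I.headD 0, V, rfl, hV1, hV2⟩, ⟨a, b, V, rfl, hV1, hV2⟩, ?_, rfl, ?_⟩
      · simp [zr]
      · refine Eq.trans ?_ hW
        congr 1
        cases I with
        | nil => simp
        | cons g I =>
          rw [if_pos (by simp), if_neg (by simp)]
          simp only [List.headD_cons, List.tail_cons, List.cons_append]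
          rw [List.dropLast_concat, List.getLastD_concat]
          simp)
  rintro W ⟨a, z, V', rfl, hV1, hV2⟩
  obtain ⟨V, b, I, rfl⟩ := last_mark V' (by omega)
  have hV1' : nmk V = k := by
    rw [nmk_append] at hV1
    simp only [nmk, nmk_bw, if_true] at hV1
    omega
  have hlen : V.length + I.length = k + e := by
    simp [bw] at hV2
    omega
  have hle := nmk_le V
  have h1 := main (V.length - k) (I ++ [z]) ((true, a) :: (V ++ [(true, b)]))
    (by simp; omega) (by simp) ⟨a, b, V, rfl, hV1', by omega⟩
  simp only [List.getLastD_concat, List.dropLast_concat] at h1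
  rw [getLastD_replicate, List.length_append, List.length_singleton, dropLast_replicate'] at h1
  have e2 : (true, a) :: ((V ++ (true, b) :: bw I) ++ [(true, z)]) =
      ((true, a) :: (V ++ [(true, b)])) ++ (bw I ++ [(true, z)]) := by simp
  rw [e2, h1, zr_append, zr_append, zr_bw]
  rfl

/-- **Rigidity for `k₀ + 2` marks implies rigidity for more marks.** -/
theorem AL_mono {k₀ e : ℕ} (h : ∀ e', e' ≤ e → S_AL k₀ e') (k : ℕ) (hk : k₀ ≤ k) :
    ∀ e', e' ≤ e → S_AL k e' := by
  induction k, hk using Nat.le_induction with
  | base => exact h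
  | succ k _ ih => exact fun e' he' => AL_step fun e'' he'' => ih e'' (by omega)

end Pent
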