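import Pool.Agent.Lib.MP_a57f33_nt.PN.N.Main

/-!
# Pentagon project (MP_a57f33_nt): three marks

Rigidity of open chains with three marks (Lemma H) implies rigidity with four marks.
-/

set_option autoImplicit false

namespace Pent

universe v

/-- **Rigidity of open chains with three marks implies the pentagon equation modulo depth
`n0 + 2`.** -/
theorem trunc_of_AL1 (n0 : ℕ) (h : ∀ e : ℕ, e + 2 ≤ n0 → S_AL 1 e) : S_trunc.{v} (n0 + 2) :=
  trunc_of_AL n0 fun e he => AL_step fun e' he' => h e' (by omega)

/-- **Rigidity of open chains with three marks implies the pentagon equation for all elements of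
`dm₀`.** -/
theorem pentagon_of_AL1 (h : ∀ e : ℕ, S_AL 1 e) : S_main.{v} :=
  pentagon_of_AL fun _ => AL_step fun e' _ => h e'

end Pent
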